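import Mathlib

/-!
# Haussler's packing argument for families with few traces
-/

set_option autoImplicit false

namespace Pool.Agent.KS6_38.CE

open Finset

section ude

variable {α : Type*} [DecidableEq α]

/-- the sets `A ∈ 𝒜` with `a ∉ A` and `A ∪ {a} ∈ 𝒜` -/
def edg (a : α) (𝒜 : Finset (Finset α)) : Finset (Finset α) :=
  𝒜.filter (fun A => a ∉ A ∧ insert a A ∈ 𝒜)

theorem mem_edg {a : α} {𝒜 : Finset (Finset α)} {A : Finset α} :
    A ∈ edg a 𝒜 ↔ A ∈ 𝒜 ∧ a ∉ A ∧ insert a A ∈ 𝒜 := by
  rw [edg, mem_filter]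

theorem edg_union_inter (a : α) (F G : Finset (Finset α)) :
    (edg a F).card + (edg a G).card ≤ (edg a (F ∪ G)).card + (edg a (F ∩ G)).card := by
  rw [← card_union_add_card_inter]
  apply add_le_add
  · apply card_le_card
    intro A hA
    rw [mem_union, mem_edg, mem_edg] at hA
    rw [mem_edg, mem_union, mem_union]
    tauto
  · apply card_le_card
    intro A hA
    rw [mem_inter, mem_edg, mem_edg] at hA
    rw [mem_edg, mem_inter, mem_inter]
    tauto

theorem edg_split {a b : α} (hab : b ≠ a) (𝒜 : Finset (Finset α)) :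
    (edg b 𝒜).card ≤
      (edg b (𝒜.memberSubfamily a)).card + (edg b (𝒜.nonMemberSubfamily a)).card := by
  have h1 := card_filter_add_card_filter_not (s := edg b 𝒜) (fun A => a ∈ A)
  rw [← h1]
  apply add_le_add
  · apply card_le_card_of_injOn (fun A => A.erase a)
    · intro A hA
      rw [mem_coe, mem_filter, mem_edg] at hA
      obtain ⟨⟨h1, h2, h3⟩, h4⟩ := hA
      rw [mem_coe, mem_edg, mem_memberSubfamily, mem_memberSubfamily]
      have h5 : insert a (A.erase a) = A := insert_erase h4
      refine ⟨⟨by rw [h5]; exact h1, notMem_erase a A⟩, fun h => h2 (mem_of_mem_erase h), ?_, ?_⟩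
      · rw [insert_comm, h5]
        exact h3
      · rw [mem_insert, not_or]
        exact ⟨hab.symm, notMem_erase a A⟩
    · intro A hA B hB hAB
      rw [mem_coe, mem_filter] at hA hB
      have : insert a (A.erase a) = insert a (B.erase a) := congrArg (insert a) hAB
      rwa [insert_erase hA.2, insert_erase hB.2] at this
  · apply card_le_card
    intro A hA
    rw [mem_filter, mem_edg] at hA
    obtain ⟨⟨h1, h2, h3⟩, h4⟩ := hA
    rw [mem_edg, mem_nonMemberSubfamily, mem_nonMemberSubfamily]
    refine ⟨⟨h1, h4⟩, h2, h3, ?_⟩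
    rw [mem_insert, not_or]
    exact ⟨hab.symm, h4⟩

/-- the number of edges of the unit distance graph of a family -/
theorem ude_le (U : Finset α) : ∀ (d : ℕ) (𝒜 : Finset (Finset α)), (∀ A ∈ 𝒜, A ⊆ U) →
    (∀ S, 𝒜.Shatters S → S.card ≤ d) → ∑ a ∈ U, (edg a 𝒜).card ≤ d * 𝒜.card := by
  induction U using Finset.induction_on with
  | empty =>
    intro d 𝒜 _ _
    simp
  | insert a U haU ih =>
    intro d 𝒜 hU hS
    set M := 𝒜.memberSubfamily a with hM
    set N := 𝒜.nonMemberSubfamily a with hN
    have hcard : (M ∪ N).card + (M ∩ N).card = 𝒜.card := by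
      rw [card_union_add_card_inter, hM, hN, card_memberSubfamily_add_card_nonMemberSubfamily]
    have hMa : ∀ A ∈ M ∪ N, a ∉ A := by
      intro A hA
      rw [mem_union, hM, hN, mem_memberSubfamily, mem_nonMemberSubfamily] at hA
      tauto
    have hMU : ∀ A ∈ M ∪ N, A ⊆ U := by
      intro A hA x hx
      have hxa : x ≠ a := by
        rintro rfl
        exact hMa A hA hx
      have h1 : A ∈ 𝒜 ∨ insert a A ∈ 𝒜 := by
        rw [mem_union, hM, hN, mem_memberSubfamily, mem_nonMemberSubfamily] at hA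
        tauto
      have h2 : x ∈ insert a U := by
        rcases h1 with h1 | h1
        · exact hU _ h1 hx
        · exact hU _ h1 (mem_insert_of_mem hx)
      rw [mem_insert] at h2
      exact h2.resolve_left hxa
    have hSh1 : ∀ S, (M ∪ N).Shatters S → S.card ≤ d := by
      intro S hSS
      apply hS
      have haS : a ∉ S := by
        intro haS
        obtain ⟨u, hu, hSu⟩ := hSS (Subset.refl S)
        apply hMa u hu
        have : a ∈ S ∩ u := by
          rw [hSu]
          exact haS
        exact (mem_inter.1 this).2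
      intro t ht
      obtain ⟨u, hu, hSu⟩ := hSS ht
      rw [mem_union, hM, hN, mem_memberSubfamily, mem_nonMemberSubfamily] at hu
      rcases hu with hu | hu
      · refine ⟨insert a u, hu.1, ?_⟩
        rw [inter_insert_of_notMem haS]
        exact hSu
      · exact ⟨u, hu.1, hSu⟩
    have hSh2 : ∀ S, (M ∩ N).Shatters S → S.card + 1 ≤ d := by
      intro S hSS
      have haS : a ∉ S := by
        intro haS
        obtain ⟨u, hu, hSu⟩ := hSS (Subset.refl S)
        apply hMa u (mem_union_left _ (mem_inter.1 hu).1)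
        have : a ∈ S ∩ u := by
          rw [hSu]
          exact haS
        exact (mem_inter.1 this).2
      rw [← card_insert_of_notMem haS]
      apply hS
      intro t ht
      have ht' : t.erase a ⊆ S := by
        intro x hx
        rw [mem_erase] at hx
        have := ht hx.2
        rw [mem_insert] at this
        exact this.resolve_left hx.1
      obtain ⟨u, hu, hSu⟩ := hSS ht'
      rw [mem_inter, hM, hN, mem_memberSubfamily, mem_nonMemberSubfamily] at hu
      obtain ⟨⟨h1, h2⟩, h3, -⟩ := hu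
      by_cases hat : a ∈ t
      · refine ⟨insert a u, h1, ?_⟩
        rw [← insert_inter_distrib, hSu, insert_erase hat]
      · refine ⟨u, h3, ?_⟩
        rw [insert_inter_of_notMem h2, hSu, erase_eq_of_notMem hat]
    have hstep : ∑ b ∈ U, (edg b 𝒜).card ≤
        ∑ b ∈ U, (edg b (M ∪ N)).card + ∑ b ∈ U, (edg b (M ∩ N)).card := by
      rw [← sum_add_distrib]
      refine sum_le_sum fun b hb => ?_
      have hba : b ≠ a := by
        rintro rfl
        exact haU hb
      exact (edg_split hba 𝒜).trans (edg_union_inter b M N)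
    have hfirst : (edg a 𝒜).card = (M ∩ N).card := by
      congr 1
      ext A
      rw [mem_edg, mem_inter, hM, hN, mem_memberSubfamily, mem_nonMemberSubfamily]
      tauto
    rw [sum_insert haU, hfirst]
    have h1 := ih d (M ∪ N) hMU hSh1
    rcases Nat.eq_zero_or_pos d with hd | hd
    · have h3 : M ∩ N = ∅ := by
        by_contra hne
        have := hSh2 ∅ (shatters_empty.2 (nonempty_iff_ne_empty.2 hne))
        omega
      rw [h3] at hstep hcard ⊢
      simp only [edg, filter_empty, card_empty, sum_const_zero, add_zero] at hstep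
      simp only [card_empty, add_zero] at hcard
      rw [← hcard, card_empty, zero_add]
      exact hstep.trans h1
    · obtain ⟨d', rfl⟩ : ∃ d', d = d' + 1 := ⟨d - 1, by omega⟩
      have h2 := ih d' (M ∩ N)
        (fun A hA => hMU A (mem_union_left _ (mem_inter.1 hA).1))
        (fun S hSS => by have := hSh2 S hSS; omega)
      rw [← hcard]
      have h5 : (d' + 1) * ((M ∪ N).card + (M ∩ N).card) =
        (d' + 1) * (M ∪ N).card + (d' * (M ∩ N).card + (M ∩ N).card) := by ring
      rw [h5]
      omega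

/-- the weighted number of edges -/
theorem weighted_ude_le (U : Finset α) (d : ℕ) (𝒜 : Finset (Finset α)) (hU : ∀ A ∈ 𝒜, A ⊆ U)
    (hS : ∀ S, 𝒜.Shatters S → S.card ≤ d) (w : Finset α → ℕ) :
    ∑ a ∈ U, ∑ A ∈ edg a 𝒜, min (w A) (w (insert a A)) ≤ d * ∑ A ∈ 𝒜, w A := by
  set m := 𝒜.sup w with hm
  have hwm : ∀ A ∈ 𝒜, w A ≤ m := fun A hA => le_sup (f := w) hA
  have h1 : ∀ x ≤ m, x = ∑ t ∈ range m, if t < x then 1 else 0 := by
    intro x hx
    rw [← sum_filter, sum_const, smul_eq_mul, mul_one]
    have : (range m).filter (fun t => t < x) = range x := by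
      ext t
      rw [mem_filter, mem_range, mem_range]
      omega
    rw [this, card_range]
  have h2 : ∑ A ∈ 𝒜, w A = ∑ t ∈ range m, (𝒜.filter (fun A => t < w A)).card := by
    have : ∀ A ∈ 𝒜, w A = ∑ t ∈ range m, if t < w A then 1 else 0 := fun A hA => h1 _ (hwm A hA)
    rw [sum_congr rfl this, sum_comm]
    refine sum_congr rfl fun t _ => ?_
    rw [card_filter]
  have h3 : ∑ a ∈ U, ∑ A ∈ edg a 𝒜, min (w A) (w (insert a A)) =
      ∑ t ∈ range m, ∑ a ∈ U, (edg a (𝒜.filter (fun A => t < w A))).card := by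
    rw [sum_comm (s := range m)]
    refine sum_congr rfl fun a _ => ?_
    have : ∀ A ∈ edg a 𝒜, min (w A) (w (insert a A)) =
        ∑ t ∈ range m, if t < min (w A) (w (insert a A)) then 1 else 0 := by
      intro A hA
      exact h1 _ ((min_le_left _ _).trans (hwm A (mem_edg.1 hA).1))
    rw [sum_congr rfl this, sum_comm]
    refine sum_congr rfl fun t _ => ?_
    rw [← card_filter]
    congr 1
    ext A
    rw [mem_filter, mem_edg, mem_edg, mem_filter, mem_filter, lt_min_iff]
    tauto
  rw [h2, h3, mul_sum]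
  refine sum_le_sum fun t _ => ?_
  exact ude_le U d _ (fun A hA => hU A (mem_filter.1 hA).1)
    (fun S hSS => hS S (hSS.mono_left (filter_subset _ _)))

end ude

section packing

variable {α ι : Type*} [DecidableEq α] [Fintype ι] [DecidableEq ι]

/-- the traces of the family on `Y` -/
def traces (P : ι → Finset α) (Y : Finset α) : Finset (Finset α) :=
  univ.image (fun i => P i ∩ Y)

/-- the members of the family with trace `T` on `Y` -/
def cls (P : ι → Finset α) (Y T : Finset α) : Finset ι := univ.filter (fun i => P i ∩ Y = T)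

/-- the smaller part of the splitting of the classes on `A` by `a` -/
def splitSum (P : ι → Finset α) (A : Finset α) (a : α) : ℕ :=
  ∑ T ∈ traces P A, min ((cls P A T).filter (fun i => a ∉ P i)).card
    ((cls P A T).filter (fun i => a ∈ P i)).card

theorem mem_cls {P : ι → Finset α} {Y T : Finset α} {i : ι} : i ∈ cls P Y T ↔ P i ∩ Y = T := by
  rw [cls, mem_filter, and_iff_right (mem_univ _)]

theorem sum_cls (P : ι → Finset α) (Y : Finset α) :
    ∑ T ∈ traces P Y, (cls P Y T).card = Fintype.card ι := by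
  rw [← card_univ (α := ι)]
  symm
  apply card_eq_sum_card_fiberwise
  intro i _
  exact mem_coe.2 (mem_image_of_mem _ (mem_univ i))

theorem cls_insert_notMem {P : ι → Finset α} {A T : Finset α} {a : α} (haA : a ∉ A)
    (hT : T ∈ traces P A) :
    (cls P A T).filter (fun i => a ∉ P i) = cls P (insert a A) T := by
  obtain ⟨i0, -, rfl⟩ := mem_image.1 hT
  ext i
  rw [mem_filter, mem_cls, mem_cls]
  constructor
  · rintro ⟨h1, h2⟩
    rw [inter_insert_of_notMem h2]
    exact h1
  · intro h1
    have h2 : a ∉ P i := by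
      intro h2
      have h3 : a ∈ P i ∩ insert a A := mem_inter.2 ⟨h2, mem_insert_self _ _⟩
      rw [h1] at h3
      exact haA (mem_inter.1 h3).2
    rw [inter_insert_of_notMem h2] at h1
    exact ⟨h1, h2⟩

theorem cls_insert_mem {P : ι → Finset α} {A T : Finset α} {a : α} (haA : a ∉ A)
    (hT : T ∈ traces P A) :
    (cls P A T).filter (fun i => a ∈ P i) = cls P (insert a A) (insert a T) := by
  obtain ⟨i0, -, rfl⟩ := mem_image.1 hT
  have haT : a ∉ P i0 ∩ A := fun h => haA (mem_inter.1 h).2
  ext i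
  rw [mem_filter, mem_cls, mem_cls]
  constructor
  · rintro ⟨h1, h2⟩
    rw [inter_insert_of_mem h2, h1]
  · intro h1
    have h2 : a ∈ P i := by
      have h3 : a ∈ P i ∩ insert a A := h1 ▸ mem_insert_self _ _
      exact (mem_inter.1 h3).1
    rw [inter_insert_of_mem h2] at h1
    refine ⟨?_, h2⟩
    have h4 : a ∉ P i ∩ A := fun h => haA (mem_inter.1 h).2
    rw [← erase_insert h4, h1, erase_insert haT]

theorem splitSum_le (P : ι → Finset α) {A : Finset α} {a : α} (haA : a ∉ A) :
    splitSum P A a ≤ ∑ T ∈ edg a (traces P (insert a A)),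
      min (cls P (insert a A) T).card (cls P (insert a A) (insert a T)).card := by
  have h1 : splitSum P A a = ∑ T ∈ traces P A,
      min (cls P (insert a A) T).card (cls P (insert a A) (insert a T)).card := by
    rw [splitSum]
    refine sum_congr rfl fun T hT => ?_
    rw [cls_insert_notMem haA hT, cls_insert_mem haA hT]
  rw [h1]
  apply sum_le_sum_of_ne_zero
  intro T hT hne
  obtain ⟨i0, -, rfl⟩ := mem_image.1 hT
  have h2 : (cls P (insert a A) (P i0 ∩ A)).card ≠ 0 := by
    intro h
    apply hne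
    rw [h]
    exact Nat.zero_min _
  have h3 : (cls P (insert a A) (insert a (P i0 ∩ A))).card ≠ 0 := by
    intro h
    apply hne
    rw [h]
    exact Nat.min_zero _
  obtain ⟨i, hi⟩ := card_ne_zero.1 h2
  obtain ⟨j, hj⟩ := card_ne_zero.1 h3
  rw [mem_cls] at hi hj
  rw [mem_edg]
  refine ⟨?_, fun h => haA (mem_inter.1 h).2, ?_⟩
  · rw [← hi]
    exact mem_image_of_mem _ (mem_univ i)
  · rw [← hj]
    exact mem_image_of_mem _ (mem_univ j)

/-- the upper bound for a set `Y` -/
theorem sum_splitSum_le (P : ι → Finset α) (d : ℕ) (Y : Finset α)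
    (hS : ∀ S ⊆ Y, (∀ T ⊆ S, ∃ i, P i ∩ S = T) → S.card ≤ d) :
    ∑ a ∈ Y, splitSum P (Y.erase a) a ≤ d * Fintype.card ι := by
  have h1 : ∑ a ∈ Y, splitSum P (Y.erase a) a ≤
      ∑ a ∈ Y, ∑ T ∈ edg a (traces P Y), min (cls P Y T).card (cls P Y (insert a T)).card := by
    refine sum_le_sum fun a ha => ?_
    have h := splitSum_le P (notMem_erase a Y)
    rwa [insert_erase ha] at h
  refine h1.trans ?_
  rw [← sum_cls P Y]
  refine weighted_ude_le Y d (traces P Y) ?_ ?_ (fun T => (cls P Y T).card)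
  · intro A hA
    obtain ⟨i, -, rfl⟩ := mem_image.1 hA
    exact inter_subset_right
  · intro S hSS
    have hSY : S ⊆ Y := by
      obtain ⟨t, ht, hSt⟩ := hSS.exists_superset
      obtain ⟨i, -, rfl⟩ := mem_image.1 ht
      exact hSt.trans inter_subset_right
    apply hS S hSY
    intro T hT
    obtain ⟨u, hu, hSu⟩ := hSS hT
    obtain ⟨i, -, rfl⟩ := mem_image.1 hu
    refine ⟨i, ?_⟩
    rw [← hSu, inter_comm (P i) Y, ← inter_assoc, inter_eq_left.2 hSY, inter_comm]

/-- the lower bound for one class -/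
theorem cls_lower (P : ι → Finset α) (Z A : Finset α) (hPZ : ∀ i, P i ⊆ Z) (k : ℕ)
    (hk : ∀ i j, i ≠ j → k ≤ (P i \ P j).card + (P j \ P i).card) {T : Finset α}
    (hT : T ∈ traces P A) :
    k * ((cls P A T).card - 1) ≤ 2 * ∑ a ∈ Z \ A,
      min ((cls P A T).filter (fun i => a ∉ P i)).card
        ((cls P A T).filter (fun i => a ∈ P i)).card := by
  set C := cls P A T with hC
  set c := C.card with hc
  have hcpos : 0 < c := by
    obtain ⟨i0, -, rfl⟩ := mem_image.1 hT
    rw [hc, card_pos]
    exact ⟨i0, mem_cls.2 rfl⟩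
  -- number of ordered pairs separated by `a`
  have h1 : ∀ a, ((C.filter (fun i => a ∉ P i)).card) * ((C.filter (fun i => a ∈ P i)).card) =
      ∑ i ∈ C, ∑ j ∈ C, if a ∈ P j \ P i then 1 else 0 := by
    intro a
    rw [card_filter, card_filter, sum_mul_sum]
    refine sum_congr rfl fun i _ => sum_congr rfl fun j _ => ?_
    by_cases h1 : a ∈ P i <;> by_cases h2 : a ∈ P j <;> simp [h1, h2]
  have h2 : ∀ i ∈ C, ∀ j ∈ C, ∑ a ∈ Z \ A, (if a ∈ P j \ P i then 1 else 0) =
      (P j \ P i).card := by
    intro i hi j hj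
    rw [← card_filter]
    congr 1
    ext a
    rw [mem_filter, mem_sdiff, mem_sdiff]
    constructor
    · exact fun h => h.2
    · rintro ⟨h3, h4⟩
      refine ⟨⟨hPZ j h3, ?_⟩, h3, h4⟩
      intro haA
      rw [hC, mem_cls] at hi hj
      have h5 : a ∈ P i ∩ A := by
        rw [hi, ← hj]
        exact mem_inter.2 ⟨h3, haA⟩
      exact h4 (mem_inter.1 h5).1
  have h3 : ∑ a ∈ Z \ A, ((C.filter (fun i => a ∉ P i)).card) *
      ((C.filter (fun i => a ∈ P i)).card) = ∑ i ∈ C, ∑ j ∈ C, (P j \ P i).card := by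
    rw [sum_congr rfl fun a _ => h1 a, sum_comm]
    refine sum_congr rfl fun i hi => ?_
    rw [sum_comm]
    exact sum_congr rfl fun j hj => h2 i hi j hj
  have h4 : 2 * ∑ i ∈ C, ∑ j ∈ C, (P j \ P i).card =
      ∑ i ∈ C, ∑ j ∈ C, ((P i \ P j).card + (P j \ P i).card) := by
    have h5 : ∑ i ∈ C, ∑ j ∈ C, (P i \ P j).card = ∑ i ∈ C, ∑ j ∈ C, (P j \ P i).card :=
      sum_comm
    simp only [sum_add_distrib]
    rw [h5, two_mul]
  have h5 : c * ((c - 1) * k) ≤ ∑ i ∈ C, ∑ j ∈ C, ((P i \ P j).card + (P j \ P i).card) := by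
    rw [hc, ← smul_eq_mul, ← sum_const]
    refine sum_le_sum fun i hi => ?_
    rw [← card_erase_of_mem hi, ← smul_eq_mul, ← sum_const]
    refine (sum_le_sum fun j hj => hk i j ?_).trans
      (sum_le_sum_of_subset (erase_subset i C))
    exact (mem_erase.1 hj).1.symm
  have h6 : ∀ a, ((C.filter (fun i => a ∉ P i)).card) * ((C.filter (fun i => a ∈ P i)).card) ≤
      c * min ((C.filter (fun i => a ∉ P i)).card) ((C.filter (fun i => a ∈ P i)).card) := by
    intro a
    set x := (C.filter (fun i => a ∉ P i)).card with hx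
    set y := (C.filter (fun i => a ∈ P i)).card with hy
    have hxc : x ≤ c := card_filter_le _ _
    have hyc : y ≤ c := card_filter_le _ _
    rcases le_total x y with h | h
    · rw [min_eq_left h, mul_comm]
      exact Nat.mul_le_mul_right _ hyc
    · rw [min_eq_right h]
      exact Nat.mul_le_mul_right _ hxc
  have h7 : ∑ a ∈ Z \ A, ((C.filter (fun i => a ∉ P i)).card) *
      ((C.filter (fun i => a ∈ P i)).card) ≤ c * ∑ a ∈ Z \ A,
      min ((C.filter (fun i => a ∉ P i)).card) ((C.filter (fun i => a ∈ P i)).card) := by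
    rw [mul_sum]
    exact sum_le_sum fun a _ => h6 a
  have h8 : c * (k * (c - 1)) ≤ c * (2 * ∑ a ∈ Z \ A,
      min ((C.filter (fun i => a ∉ P i)).card) ((C.filter (fun i => a ∈ P i)).card)) := by
    calc c * (k * (c - 1)) = c * ((c - 1) * k) := by ring
      _ ≤ 2 * ∑ i ∈ C, ∑ j ∈ C, (P j \ P i).card := by rw [h4]; exact h5
      _ ≤ 2 * (c * ∑ a ∈ Z \ A,
      min ((C.filter (fun i => a ∉ P i)).card) ((C.filter (fun i => a ∈ P i)).card)) := by
        rw [← h3]
        exact Nat.mul_le_mul_left _ h7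
      _ = _ := by ring
  exact Nat.le_of_mul_le_mul_left h8 hcpos

/-- the lower bound for a set `A` -/
theorem sum_splitSum_ge (P : ι → Finset α) (Z A : Finset α) (hPZ : ∀ i, P i ⊆ Z) (k : ℕ)
    (hk : ∀ i j, i ≠ j → k ≤ (P i \ P j).card + (P j \ P i).card) :
    k * (Fintype.card ι - (traces P A).card) ≤ 2 * ∑ a ∈ Z \ A, splitSum P A a := by
  have h1 : ∑ a ∈ Z \ A, splitSum P A a = ∑ T ∈ traces P A, ∑ a ∈ Z \ A,
      min ((cls P A T).filter (fun i => a ∉ P i)).card
        ((cls P A T).filter (fun i => a ∈ P i)).card := by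
    simp only [splitSum]
    exact sum_comm
  have h2 : Fintype.card ι - (traces P A).card ≤ ∑ T ∈ traces P A, ((cls P A T).card - 1) := by
    rw [← sum_cls P A, tsub_le_iff_right, card_eq_sum_ones (traces P A), ← sum_add_distrib]
    refine sum_le_sum fun T _ => ?_
    omega
  calc k * (Fintype.card ι - (traces P A).card)
      ≤ k * ∑ T ∈ traces P A, ((cls P A T).card - 1) := Nat.mul_le_mul_left _ h2
    _ = ∑ T ∈ traces P A, k * ((cls P A T).card - 1) := mul_sum _ _ _
    _ ≤ ∑ T ∈ traces P A, 2 * ∑ a ∈ Z \ A, min ((cls P A T).filter (fun i => a ∉ P i)).card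
        ((cls P A T).filter (fun i => a ∈ P i)).card :=
        sum_le_sum fun T hT => cls_lower P Z A hPZ k hk hT
    _ = 2 * ∑ a ∈ Z \ A, splitSum P A a := by rw [h1, mul_sum]

/-- **Haussler's packing inequality.** Let `P i`, `i ∈ ι`, be subsets of the `n`-element set `Z`
with pairwise distances at least `k`, and suppose that no set with more than `d` elements is
shattered. If the family has at most `N` traces on every set with `q ≤ n` elements, then
`k (|ι| - N) (q + 1) ≤ 2 d |ι| (n - q)`. -/
theorem packing (P : ι → Finset α) (Z : Finset α) (hPZ : ∀ i, P i ⊆ Z) (k d q N : ℕ)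
    (hk : ∀ i j, i ≠ j → k ≤ (P i \ P j).card + (P j \ P i).card)
    (hS : ∀ S ⊆ Z, (∀ T ⊆ S, ∃ i, P i ∩ S = T) → S.card ≤ d) (hq : q ≤ Z.card)
    (hN : ∀ A ⊆ Z, A.card = q → (traces P A).card ≤ N) :
    k * (Fintype.card ι - N) * (q + 1) ≤ 2 * d * Fintype.card ι * (Z.card - q) := by
  have hdc : ∑ Y ∈ powersetCard (q + 1) Z, ∑ a ∈ Y, splitSum P (Y.erase a) a =
      ∑ A ∈ powersetCard q Z, ∑ a ∈ Z \ A, splitSum P A a := by
    rw [sum_sigma', sum_sigma']
    refine sum_bij' (fun x _ => (⟨x.1.erase x.2, x.2⟩ : Σ _ : Finset α, α))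
      (fun x _ => (⟨insert x.2 x.1, x.2⟩ : Σ _ : Finset α, α)) ?_ ?_ ?_ ?_ ?_
    · rintro ⟨Y, a⟩ h
      rw [mem_sigma, mem_powersetCard] at h
      obtain ⟨⟨h1, h2⟩, h3⟩ := h
      simp only at h3
      rw [mem_sigma, mem_powersetCard, mem_sdiff]
      refine ⟨⟨(erase_subset _ _).trans h1, ?_⟩, h1 h3, notMem_erase _ _⟩
      rw [card_erase_of_mem h3, h2]
      rfl
    · rintro ⟨A, a⟩ h
      rw [mem_sigma, mem_powersetCard, mem_sdiff] at h
      obtain ⟨⟨h1, h2⟩, h3, h4⟩ := h
      simp only at h3 h4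
      rw [mem_sigma, mem_powersetCard]
      refine ⟨⟨insert_subset h3 h1, ?_⟩, mem_insert_self _ _⟩
      rw [card_insert_of_notMem h4, h2]
    · rintro ⟨Y, a⟩ h
      rw [mem_sigma] at h
      simp only at h ⊢
      rw [insert_erase h.2]
    · rintro ⟨A, a⟩ h
      rw [mem_sigma, mem_sdiff] at h
      simp only at h ⊢
      rw [erase_insert h.2.2]
    · rintro ⟨Y, a⟩ h
      rfl
  have hup : ∑ Y ∈ powersetCard (q + 1) Z, ∑ a ∈ Y, splitSum P (Y.erase a) a ≤
      Z.card.choose (q + 1) * (d * Fintype.card ι) := by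
    rw [← card_powersetCard, ← smul_eq_mul, ← sum_const]
    refine sum_le_sum fun Y hY => ?_
    rw [mem_powersetCard] at hY
    exact sum_splitSum_le P d Y fun S hSY hSh => hS S (hSY.trans hY.1) hSh
  have hlo : Z.card.choose q * (k * (Fintype.card ι - N)) ≤
      2 * ∑ A ∈ powersetCard q Z, ∑ a ∈ Z \ A, splitSum P A a := by
    rw [← card_powersetCard, ← smul_eq_mul, ← sum_const, mul_sum]
    refine sum_le_sum fun A hA => ?_
    rw [mem_powersetCard] at hA
    refine le_trans (Nat.mul_le_mul_left _ ?_) (sum_splitSum_ge P Z A hPZ k hk)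
    have := hN A hA.1 hA.2
    omega
  rw [← hdc] at hlo
  have h1 : Z.card.choose q * (k * (Fintype.card ι - N)) ≤
      2 * (Z.card.choose (q + 1) * (d * Fintype.card ι)) :=
    hlo.trans (Nat.mul_le_mul_left _ hup)
  have h2 := Nat.choose_succ_right_eq Z.card q
  have h3 : Z.card.choose q * (k * (Fintype.card ι - N) * (q + 1)) ≤
      Z.card.choose q * (2 * d * Fintype.card ι * (Z.card - q)) := by
    calc Z.card.choose q * (k * (Fintype.card ι - N) * (q + 1))
        = (Z.card.choose q * (k * (Fintype.card ι - N))) * (q + 1) := by ring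
      _ ≤ (2 * (Z.card.choose (q + 1) * (d * Fintype.card ι))) * (q + 1) :=
        Nat.mul_le_mul_right _ h1
      _ = (Z.card.choose (q + 1) * (q + 1)) * (2 * d * Fintype.card ι) := by ring
      _ = _ := by rw [h2]; ring
  exact Nat.le_of_mul_le_mul_left h3 (Nat.choose_pos hq)

end packing

end Pool.Agent.KS6_38.CE
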