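import Pool.Agent.KS6_38.CE.Dual
import Pool.Agent.KS6_38.CE.Pack

/-!
# Small cocircuits in binary matroids without a wheel
-/

set_option autoImplicit false

namespace Pool.Agent.KS6_38.CE

open Set Module Submodule

universe u w

section general

variable {V : Type*} [AddCommGroup V] [Module (ZMod 2) V]

/-- a configuration with all nonzero vectors contains a wheel -/
theorem wheel_of_all {κ : Type*} [Fintype κ] [DecidableEq κ] {r : ℕ} (hr : 3 ≤ r)
    (hκ : r ≤ Fintype.card κ) {R : Set (κ → ZMod 2)} (hR : ∀ x, x ≠ 0 → x ∈ R) :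
    HasWheel r R := by
  classical
  obtain ⟨c⟩ : Nonempty (Fin r ↪ κ) := by
    apply Function.Embedding.nonempty_of_card_le
    rwa [Fintype.card_fin]
  let nx : Fin r → Fin r := fun i => ⟨((i : ℕ) + 1) % r, Nat.mod_lt _ (by omega)⟩
  have hnx : ∀ i, nx i ≠ i := by
    intro i h1
    have h2 := congrArg Fin.val h1
    simp only [nx] at h2
    by_cases h3 : (i : ℕ) + 1 < r
    · rw [Nat.mod_eq_of_lt h3] at h2
      omega
    · have h4 : (i : ℕ) + 1 = r := by omega
      rw [h4, Nat.mod_self] at h2
      omega
  refine ⟨∅, empty_subset _, fun i => Pi.single (c i) 1,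
    fun i => Pi.single (c i) 1 + Pi.single (c (nx i)) 1, ?_, ?_, ?_, ?_⟩
  · intro i
    apply hR
    intro h
    have := congrFun h (c i)
    simp at this
  · intro i
    apply hR
    intro h
    have h1 := congrFun h (c i)
    have h2 : c i ≠ c (nx i) := fun h => hnx i (c.injective h).symm
    dsimp only at h1
    rw [Pi.add_apply, Pi.single_eq_same, Pi.single_eq_of_ne h2, add_zero] at h1
    exact one_ne_zero h1
  · intro g hg
    rw [span_empty, Submodule.mem_bot] at hg
    funext i
    have h1 := congrFun hg (c i)
    dsimp only at h1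
    rw [Finset.sum_apply, Finset.sum_eq_single i] at h1
    · rw [Pi.smul_apply, Pi.single_eq_same, smul_eq_mul, mul_one] at h1
      exact h1
    · intro j _ hj
      have h2 : c i ≠ c j := fun h => hj (c.injective h).symm
      rw [Pi.smul_apply, Pi.single_eq_of_ne h2, smul_zero]
    · intro h
      exact absurd (Finset.mem_univ _) h
  · intro i j hij
    have hj : j = nx i := Fin.ext hij
    rw [hj, sub_self]
    exact zero_mem _

/-- dual functionals of an independent family -/
theorem exists_dual {ι : Type*} [DecidableEq ι] {b : ι → V} (hb : LinearIndependent (ZMod 2) b) :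
    ∃ h : ι → (V →ₗ[ZMod 2] ZMod 2), ∀ q i, h q (b i) = if i = q then 1 else 0 := by
  have : ∀ q, ∃ L : V →ₗ[ZMod 2] ZMod 2, ∀ i, L (b i) = if i = q then 1 else 0 := by
    intro q
    let B := Basis.span hb
    let f : span (ZMod 2) (range b) →ₗ[ZMod 2] ZMod 2 :=
      B.constr (ZMod 2) (fun i => if i = q then 1 else 0)
    obtain ⟨g, hg⟩ := LinearMap.exists_extend f
    refine ⟨g, fun i => ?_⟩
    have h1 : f (B i) = if i = q then 1 else 0 := Basis.constr_basis _ _ _ _
    rw [← hg] at h1
    have h2 : ((B i : span (ZMod 2) (range b)) : V) = b i :=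
      congrArg Subtype.val (Basis.span_apply hb i)
    rw [LinearMap.comp_apply, Submodule.subtype_apply, h2] at h1
    exact h1
  choose h hh using this
  exact ⟨h, hh⟩

theorem expand_dual {ι : Type*} [Fintype ι] [DecidableEq ι] {b : ι → V}
    {h : ι → (V →ₗ[ZMod 2] ZMod 2)} (hh : ∀ q i, h q (b i) = if i = q then 1 else 0) {x : V}
    (hx : x ∈ span (ZMod 2) (range b)) : x = ∑ i, h i x • b i := by
  induction hx using Submodule.span_induction with
  | mem x hx =>
    obtain ⟨m, rfl⟩ := hx
    rw [Finset.sum_eq_single m]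
    · rw [hh, if_pos rfl, one_smul]
    · intro i _ hi
      rw [hh, if_neg hi.symm, zero_smul]
    · intro hm
      exact absurd (Finset.mem_univ _) hm
  | zero => simp
  | add x y _ _ ihx ihy =>
    conv_lhs => rw [ihx, ihy]
    rw [← Finset.sum_add_distrib]
    refine Finset.sum_congr rfl fun i _ => ?_
    rw [map_add, add_smul]
  | smul c x _ ih =>
    conv_lhs => rw [ih]
    rw [Finset.smul_sum]
    refine Finset.sum_congr rfl fun i _ => ?_
    rw [map_smul, smul_assoc]

end general

/-- the constant `(r - 2) 2 ^ (r - 2)` for `r = n + 3` -/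
def dc (n : ℕ) : ℕ := (n + 1) * 2 ^ (n + 1)

theorem arith {K m q Z d D r : ℕ} (hD : 2 ≤ D) (hm : r ≤ m) (hr : 1 ≤ r) (hd : d + 1 = r)
    (hq : q = m / (2 * D)) (hZ : Z ≤ (D - 1) * m)
    (h : K * (m + 1 - (D * q + 1)) * (q + 1) ≤ 2 * d * (m + 1) * (Z - q)) :
    K ≤ 8 * r * (D * (D - 1)) := by
  have hDpos : 0 < 2 * D := by omega
  have h1 : 2 * D * q ≤ m := by
    rw [hq]
    exact Nat.mul_div_le m (2 * D)
  have h2 : m + 1 ≤ 2 * D * (q + 1) := by
    rw [hq]
    have := Nat.lt_mul_div_succ m hDpos
    omega
  have h3 : m ≤ 2 * (m + 1 - (D * q + 1)) := by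
    have : 2 * (D * q) ≤ m := by
      rw [← mul_assoc]
      exact h1
    omega
  have hmpos : 0 < m := by omega
  have h4 : K * m * m ≤ 8 * d * (D * (D - 1)) * (m + 1) * m := by
    calc K * m * m ≤ K * (2 * (m + 1 - (D * q + 1))) * (2 * D * (q + 1)) := by
          apply Nat.mul_le_mul (Nat.mul_le_mul_left _ h3)
          omega
      _ = 4 * D * (K * (m + 1 - (D * q + 1)) * (q + 1)) := by ring
      _ ≤ 4 * D * (2 * d * (m + 1) * (Z - q)) := Nat.mul_le_mul_left _ h
      _ ≤ 4 * D * (2 * d * (m + 1) * ((D - 1) * m)) := by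
          apply Nat.mul_le_mul_left
          apply Nat.mul_le_mul_left
          omega
      _ = 8 * d * (D * (D - 1)) * (m + 1) * m := by ring
  have h5 : K * m ≤ 8 * d * (D * (D - 1)) * (m + 1) := Nat.le_of_mul_le_mul_right h4 hmpos
  have h6 : d * (m + 1) ≤ r * m := by
    rw [← hd, mul_add, add_mul]
    omega
  have h7 : K * m ≤ 8 * r * (D * (D - 1)) * m := by
    calc K * m ≤ 8 * d * (D * (D - 1)) * (m + 1) := h5
      _ = 8 * (D * (D - 1)) * (d * (m + 1)) := by ring
      _ ≤ 8 * (D * (D - 1)) * (r * m) := Nat.mul_le_mul_left _ h6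
      _ = _ := by ring
  exact Nat.le_of_mul_le_mul_right h7 hmpos

/-- **Small cocircuits.** A nonempty simple binary matroid without a wheel with `r = n + 3` spokes
has a cocircuit with at most `8 r D (D - 1) + 2` elements, `D = (r - 2) 2 ^ (r - 2) + 1`. -/
theorem small_cocircuit (n : ℕ) {V : Type w} [AddCommGroup V] [Module (ZMod 2) V]
    [DecidableEq V] (E : Finset V) (hne : E.Nonempty) (h0 : (0 : V) ∉ E)
    (hno : ¬ HasWheel (n + 3) (E : Set V)) :
    ∃ h : V →ₗ[ZMod 2] ZMod 2, (E.filter (fun x => h x = 1)).Nonempty ∧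
      (E.filter (fun x => h x = 1)).card ≤ 8 * (n + 3) * ((dc n + 1) * dc n) + 2 := by
  classical
  by_contra hcon
  push Not at hcon
  set D := dc n + 1 with hD
  set K := 8 * (n + 3) * (D * dc n) + 1 with hK
  have hdc : 2 ≤ dc n := by
    rw [dc]
    have h1 : 2 ≤ 2 ^ (n + 1) := by
      rw [pow_succ]
      have : 1 ≤ 2 ^ n := Nat.one_le_two_pow
      omega
    nlinarith
  have hDd : D - 1 = dc n := by omega
  obtain ⟨B, hBE, hBspan, hBli⟩ := exists_linearIndependent (ZMod 2) (E : Set V)
  have hBfin : B.Finite := E.finite_toSet.subset hBE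
  have : Fintype B := hBfin.fintype
  set Bf := hBfin.toFinset with hBf
  obtain ⟨h, hh⟩ := exists_dual hBli
  have hBne : B.Nonempty := by
    by_contra hB
    rw [Set.not_nonempty_iff_eq_empty] at hB
    obtain ⟨x, hx⟩ := hne
    have h1 : x ∈ span (ZMod 2) B := by
      rw [hBspan]
      exact subset_span hx
    rw [hB, span_empty, Submodule.mem_bot] at h1
    exact h0 (h1 ▸ hx)
  have hexp : ∀ x ∈ E, x = ∑ i : B, h i x • (i : V) := by
    intro x hx
    apply expand_dual hh
    rw [Subtype.range_coe, hBspan]
    exact subset_span hx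
  set m := Fintype.card B with hm
  have hrank : finrank (ZMod 2) (span (ZMod 2) (E : Set V)) = m := by
    rw [← hBspan, finrank_span_set_eq_card hBli, Set.toFinset_card]
  have hdens : E.card ≤ D * m := by
    have := wheel_density n E.card V E le_rfl h0 hno
    rw [hrank] at this
    exact this
  set Z := E \ Bf with hZ
  have hBfE : Bf ⊆ E := by
    intro x hx
    rw [hBf, Set.Finite.mem_toFinset] at hx
    exact hBE hx
  have hBfcard : Bf.card = m := by
    rw [hBf, ← Set.ncard_eq_toFinset_card B hBfin, hm, ← Nat.card_eq_fintype_card]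
    rfl
  have hZcard : Z.card ≤ (D - 1) * m := by
    rw [hZ, Finset.card_sdiff_of_subset hBfE, hBfcard, Nat.sub_mul, one_mul]
    omega
  -- the family of the rows
  let P : Option B → Finset V := fun o => o.elim ∅ (fun i => Z.filter (fun z => h i z = 1))
  have hPsome : ∀ i, P (some i) = Z.filter (fun z => h i z = 1) := fun i => rfl
  have hPnone : P none = ∅ := rfl
  have hPZ : ∀ o, P o ⊆ Z := by
    intro o
    cases o with
    | none => exact Finset.empty_subset _
    | some i => exact Finset.filter_subset _ _
  have hone : ∀ i : B, K + 1 ≤ (P (some i)).card := by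
    intro i
    have h1 := hcon (h i) ⟨i, by
      rw [Finset.mem_filter]
      exact ⟨hBE i.2, by rw [hh, if_pos rfl]⟩⟩
    have h2 : E.filter (fun x => h i x = 1) ⊆ insert (i : V) (P (some i)) := by
      intro x hx
      rw [Finset.mem_filter] at hx
      rw [Finset.mem_insert, hPsome, Finset.mem_filter, hZ, Finset.mem_sdiff]
      by_cases hxB : x ∈ B
      · left
        have h3 := hh i ⟨x, hxB⟩
        by_contra hne
        rw [if_neg (fun h => hne (congrArg Subtype.val h))] at h3
        rw [h3] at hx
        exact absurd hx.2 (by decide)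
      · right
        exact ⟨⟨hx.1, fun h => hxB (by rwa [hBf, Set.Finite.mem_toFinset] at h)⟩, hx.2⟩
    have h3 := (Finset.card_le_card h2).trans (Finset.card_insert_le _ _)
    omega
  have htwo : ∀ i j : B, i ≠ j →
      K ≤ (P (some i) \ P (some j)).card + (P (some j) \ P (some i)).card := by
    intro i j hij
    have h1 := hcon (h i + h j) ⟨i, by
      rw [Finset.mem_filter]
      exact ⟨hBE i.2, by rw [LinearMap.add_apply, hh, hh, if_pos rfl, if_neg hij, add_zero]⟩⟩
    have h2 : E.filter (fun x => (h i + h j) x = 1) ⊆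
        insert (i : V) (insert (j : V) ((P (some i) \ P (some j)) ∪ (P (some j) \ P (some i)))) := by
      intro x hx
      rw [Finset.mem_filter, LinearMap.add_apply] at hx
      rw [Finset.mem_insert, Finset.mem_insert, Finset.mem_union, Finset.mem_sdiff,
        Finset.mem_sdiff, hPsome, hPsome, Finset.mem_filter, Finset.mem_filter, hZ,
        Finset.mem_sdiff]
      by_cases hxB : x ∈ B
      · by_contra hne
        push Not at hne
        have h3 := hh i ⟨x, hxB⟩
        have h4 := hh j ⟨x, hxB⟩
        rw [if_neg (fun h => hne.1 (congrArg Subtype.val h))] at h3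
        rw [if_neg (fun h => hne.2.1 (congrArg Subtype.val h))] at h4
        rw [h3, h4] at hx
        exact absurd hx.2 (by decide)
      · right
        right
        have h5 : x ∈ E ∧ x ∉ Bf :=
          ⟨hx.1, fun h => hxB (by rwa [hBf, Set.Finite.mem_toFinset] at h)⟩
        rcases zmod2_cases (h i x) with h3 | h3 <;> rcases zmod2_cases (h j x) with h4 | h4
        · rw [h3, h4] at hx
          exact absurd hx.2 (by decide)
        · right
          exact ⟨⟨h5, h4⟩, fun h => by rw [h3] at h; exact absurd h.2 (by decide)⟩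
        · left
          exact ⟨⟨h5, h3⟩, fun h => by rw [h4] at h; exact absurd h.2 (by decide)⟩
        · rw [h3, h4] at hx
          exact absurd hx.2 (by decide)
    have h3 := Finset.card_le_card h2
    have h4 := Finset.card_insert_le (i : V)
      (insert (j : V) ((P (some i) \ P (some j)) ∪ (P (some j) \ P (some i))))
    have h5 := Finset.card_insert_le (j : V)
      ((P (some i) \ P (some j)) ∪ (P (some j) \ P (some i)))
    have h6 := Finset.card_union_le (P (some i) \ P (some j)) (P (some j) \ P (some i))
    omega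
  have hdist : ∀ o o' : Option B, o ≠ o' → K ≤ (P o \ P o').card + (P o' \ P o).card := by
    intro o o' hne
    cases o with
    | none =>
      cases o' with
      | none => exact absurd rfl hne
      | some j =>
        have := hone j
        rw [hPnone, Finset.sdiff_empty]
        omega
    | some i =>
      cases o' with
      | none =>
        have := hone i
        rw [hPnone, Finset.sdiff_empty]
        omega
      | some j => exact htwo i j (fun h => hne (congrArg some h))
  -- the dual configuration
  have hdual : ∀ A ⊆ Z, ¬ HasWheel (n + 3)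
      (range (dualConf (fun (i : B) (j : A) => h i (j : V)))) := by
    intro A hA hw
    apply hno
    have h1 := wheel_of_dual hBli (y := fun j : A => (j : V)) _ (fun j => hexp _
      (Finset.mem_sdiff.1 (hA j.2)).1) (by omega) hw
    refine h1.mono ?_
    rintro _ ⟨l, rfl⟩
    cases l with
    | inl i => exact hBE i.2
    | inr j => exact (Finset.mem_sdiff.1 (hA j.2)).1
  let φ : ∀ A : Finset V, (A → ZMod 2) → Finset V := fun A x =>
    (Finset.univ.filter (fun j : A => x j = 1)).map (Function.Embedding.subtype _)
  have hφ : ∀ A ⊆ Z, ∀ i : B, P (some i) ∩ A = φ A (fun j => h i (j : V)) := by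
    intro A hA i
    ext x
    rw [Finset.mem_inter, hPsome, Finset.mem_filter, Finset.mem_map]
    constructor
    · rintro ⟨⟨h1, h2⟩, h3⟩
      exact ⟨⟨x, h3⟩, Finset.mem_filter.2 ⟨Finset.mem_univ _, h2⟩, rfl⟩
    · rintro ⟨⟨y, hy⟩, h1, rfl⟩
      rw [Finset.mem_filter] at h1
      exact ⟨⟨hA hy, h1.2⟩, hy⟩
  have htr : ∀ A ⊆ Z, (traces P A).card ≤ D * A.card + 1 := by
    intro A hA
    set R : Finset (A → ZMod 2) := (Finset.univ.image
      (dualConf (fun (i : B) (j : A) => h i (j : V)))).erase 0 with hR
    have h1 : ¬ HasWheel (n + 3) (R : Set (A → ZMod 2)) := by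
      intro hw
      apply hdual A hA
      refine hw.mono ?_
      intro x hx
      rw [hR, Finset.mem_coe, Finset.mem_erase, Finset.mem_image] at hx
      obtain ⟨-, l, -, rfl⟩ := hx
      exact ⟨l, rfl⟩
    have h2 := wheel_density n R.card _ R le_rfl (by simp [hR]) h1
    have h3 : finrank (ZMod 2) (span (ZMod 2) (R : Set (A → ZMod 2))) ≤ A.card := by
      refine (Submodule.finrank_le _).trans ?_
      rw [Module.finrank_fintype_fun_eq_card, Fintype.card_coe]
    have h4 : traces P A ⊆ (insert 0 R).image (φ A) := by
      intro T hT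
      rw [traces, Finset.mem_image] at hT
      obtain ⟨o, -, rfl⟩ := hT
      rw [Finset.mem_image]
      cases o with
      | none =>
        refine ⟨0, Finset.mem_insert_self _ _, ?_⟩
        rw [hPnone, Finset.empty_inter]
        simp [φ]
      | some i =>
        refine ⟨fun j => h i (j : V), ?_, (hφ A hA i).symm⟩
        rw [Finset.mem_insert, hR, Finset.mem_erase, Finset.mem_image]
        by_cases hz : (fun j : A => h i (j : V)) = 0
        · exact Or.inl hz
        · exact Or.inr ⟨hz, Sum.inl i, Finset.mem_univ _, rfl⟩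
    have h5 := (Finset.card_le_card h4).trans
      (Finset.card_image_le.trans (Finset.card_insert_le _ _))
    have h6 : D * finrank (ZMod 2) (span (ZMod 2) (R : Set (A → ZMod 2))) ≤ D * A.card :=
      Nat.mul_le_mul_left _ h3
    have h7 : R.card ≤ D * finrank (ZMod 2) (span (ZMod 2) (R : Set (A → ZMod 2))) := h2
    omega
  have hSh : ∀ S ⊆ Z, (∀ T ⊆ S, ∃ o, P o ∩ S = T) → S.card ≤ n + 2 := by
    intro S hS hsh
    by_contra hcard
    push Not at hcard
    apply hdual S hS
    apply wheel_of_all (by omega) (by rw [Fintype.card_coe]; omega)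
    intro x hx
    have h1 : φ S x ⊆ S := by
      intro y hy
      rw [Finset.mem_map] at hy
      obtain ⟨z, -, rfl⟩ := hy
      exact z.2
    obtain ⟨o, ho⟩ := hsh (φ S x) h1
    have hinj : ∀ x y : S → ZMod 2, φ S x = φ S y → x = y := by
      intro x y hxy
      have h2 : Finset.univ.filter (fun j : S => x j = 1) =
          Finset.univ.filter (fun j : S => y j = 1) := Finset.map_injective _ hxy
      funext j
      have h3 := Finset.ext_iff.1 h2 j
      rw [Finset.mem_filter, Finset.mem_filter] at h3
      rcases zmod2_cases (x j) with h4 | h4 <;> rcases zmod2_cases (y j) with h5 | h5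
      · rw [h4, h5]
      · rw [h4, h5] at h3
        exact absurd (h3.2 ⟨Finset.mem_univ _, rfl⟩).2 (by decide)
      · rw [h4, h5] at h3
        exact absurd (h3.1 ⟨Finset.mem_univ _, rfl⟩).2 (by decide)
      · rw [h4, h5]
    cases o with
    | none =>
      exfalso
      apply hx
      apply hinj
      rw [← ho, hPnone, Finset.empty_inter]
      simp [φ]
    | some i =>
      rw [hφ S hS i] at ho
      have h2 := hinj _ _ ho
      exact ⟨Sum.inl i, h2⟩
  -- counting
  obtain ⟨b0, hb0⟩ := hBne
  have hPcard := hone ⟨b0, hb0⟩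
  have hPE : (P (some ⟨b0, hb0⟩)).card ≤ E.card :=
    Finset.card_le_card ((hPZ _).trans Finset.sdiff_subset)
  have hcardopt : Fintype.card (Option B) = m + 1 := by
    rw [Fintype.card_option]
  by_cases hmr : m ≤ n + 2
  · have h1 : E.card ≤ D * (n + 2) := hdens.trans (Nat.mul_le_mul_left _ hmr)
    have h2 : D * (n + 2) ≤ 8 * (n + 3) * (D * dc n) := by
      calc D * (n + 2) ≤ D * (8 * (n + 3) * dc n) := by
            apply Nat.mul_le_mul_left
            nlinarith
        _ = _ := by ring
    omega
  · push Not at hmr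
    have hq : m / (2 * D) ≤ Z.card := by
      have h1 : (traces P Z).card = m + 1 := by
        rw [traces, Finset.card_image_of_injective, Finset.card_univ, hcardopt]
        intro o o' hoo
        by_contra hne
        have h2 := hdist o o' hne
        have h3 : P o = P o' := by
          have h4 : P o ∩ Z = P o' ∩ Z := hoo
          rwa [Finset.inter_eq_left.2 (hPZ o), Finset.inter_eq_left.2 (hPZ o')] at h4
        rw [h3, Finset.sdiff_self, Finset.card_empty] at h2
        omega
      have h2 := htr Z subset_rfl
      rw [h1] at h2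
      have h3 : m ≤ D * Z.card := by omega
      calc m / (2 * D) ≤ m / D := Nat.div_le_div_left (by omega) (by omega)
        _ ≤ (D * Z.card) / D := Nat.div_le_div_right h3
        _ = Z.card := Nat.mul_div_cancel_left _ (by omega)
    have hpack := packing P Z hPZ K (n + 2) (m / (2 * D)) (D * (m / (2 * D)) + 1) hdist hSh hq
      (fun A hA hAq => by
        have := htr A hA
        rwa [hAq] at this)
    rw [hcardopt] at hpack
    have h1 := arith (r := n + 3) (d := n + 2) (D := D) (by omega) (by omega) (by omega) (by omega)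
      rfl hZcard hpack
    rw [hDd] at h1
    omega

end Pool.Agent.KS6_38.CE
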