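import Pool.Agent.KS6_38.CE.Lin

namespace Pool.Agent.KS6_38.CE

open Set Module Submodule

variable {α β F W : Type*} [Field F] [AddCommGroup W] [Module F W]

/-- linear maps killing `U` are linear maps on the quotient -/
noncomputable def homEquiv (U : Submodule F W) (N : Type*) [AddCommGroup N] [Module F N] :
    {f : W →ₗ[F] N // ∀ x ∈ U, f x = 0} ≃ (W ⧸ U →ₗ[F] N) where
  toFun f := U.liftQ f.1 (fun x hx => f.2 x hx)
  invFun g := ⟨g.comp U.mkQ, fun x hx => by
    have : U.mkQ x = 0 := by simpa using hx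
    rw [LinearMap.comp_apply, this, map_zero]⟩
  left_inv f := by
    ext x
    rfl
  right_inv g := by
    ext x
    rfl

theorem card_hom_killing [Finite F] [FiniteDimensional F W] (U : Submodule F W) (k : ℕ) :
    Nat.card {f : W →ₗ[F] (Fin k → F) // ∀ x ∈ U, f x = 0} =
      (Nat.card F) ^ (k * (finrank F W - finrank F U)) := by
  rw [Nat.card_congr (homEquiv U (Fin k → F)), Module.natCard_eq_pow_finrank (K := F),
    Module.finrank_linearMap, Submodule.finrank_quotient, Module.finrank_fin_fun, mul_comm]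

theorem charPoly_eq (M : Matroid α) [M.Finite] :
    charPoly M = ∑ X ∈ M.ground_finite.toFinset.powerset,
      (-1) ^ X.card * Polynomial.X ^ (rk M M.E - rk M (X : Set α)) := by
  classical
  rw [charPoly]
  rw [← finsum_mem_coe_finset]
  symm
  refine finsum_mem_eq_of_bijOn (fun X : Finset α => (X : Set α)) ⟨?_, ?_, ?_⟩ ?_
  · intro X hX
    simp only [Finset.coe_powerset, Set.mem_preimage, Set.mem_powerset_iff,
      Set.Finite.coe_toFinset] at hX
    exact hX
  · intro X _ Y _ hXY
    exact Finset.coe_injective hXY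
  · intro X hX
    have hXf : X.Finite := M.ground_finite.subset hX
    refine ⟨hXf.toFinset, ?_, by simp⟩
    simpa using hX
  · intro X _
    simp

theorem crapo_rota [Finite F] [FiniteDimensional F W] {M : Matroid α} [M.Finite] {v : α → W}
    (h : Rep F M v) (k : ℕ) :
    (Nat.card {f : W →ₗ[F] (Fin k → F) // ∀ e ∈ M.E, f (v e) ≠ 0} : ℤ) =
      (Nat.card F : ℤ) ^ (k * (finrank F W - rk M M.E)) *
        (charPoly M).eval ((Nat.card F : ℤ) ^ k) := by
  classical
  have hfin : Finite (W →ₗ[F] (Fin k → F)) := Module.finite_of_finite F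
  have : Fintype (W →ₗ[F] (Fin k → F)) := Fintype.ofFinite _
  set S : α → Finset (W →ₗ[F] (Fin k → F)) := fun e => Finset.univ.filter (fun f => f (v e) = 0)
    with hS
  have h1 := Finset.inclusion_exclusion_card_inf_compl M.ground_finite.toFinset S
  have h2 : (M.ground_finite.toFinset.inf fun i => (S i)ᶜ) =
      Finset.univ.filter (fun f : W →ₗ[F] (Fin k → F) => ∀ e ∈ M.E, f (v e) ≠ 0) := by
    ext f
    simp [Finset.mem_inf, hS]
  have h3 : Nat.card {f : W →ₗ[F] (Fin k → F) // ∀ e ∈ M.E, f (v e) ≠ 0} =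
      (Finset.univ.filter (fun f : W →ₗ[F] (Fin k → F) => ∀ e ∈ M.E, f (v e) ≠ 0)).card := by
    rw [Nat.card_eq_fintype_card, Fintype.card_subtype]
  rw [h3, ← h2, h1, charPoly_eq, Polynomial.eval_finsetSum, Finset.mul_sum]
  refine Finset.sum_congr rfl fun X hX => ?_
  have hXE : (X : Set α) ⊆ M.E := by
    simpa using hX
  have hrk : rk M (X : Set α) = finrank F (span F (v '' (X : Set α))) := h.rk_eq hXE
  have hrkE : rk M M.E = finrank F (span F (v '' M.E)) := h.rk_eq Subset.rfl
  have hle1 : rk M (X : Set α) ≤ rk M M.E := by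
    rw [hrk, hrkE]
    exact Submodule.finrank_mono (span_mono (image_mono hXE))
  have hle2 : rk M M.E ≤ finrank F W := by
    rw [hrkE]
    exact Submodule.finrank_le _
  have h4 : (X.inf S).card = (Nat.card F) ^ (k * (finrank F W - rk M (X : Set α))) := by
    rw [hrk, ← card_hom_killing (span F (v '' (X : Set α))) k, Nat.card_eq_fintype_card,
      Fintype.card_subtype]
    congr 1
    ext f
    simp only [Finset.mem_inf, hS, Finset.mem_filter, Finset.mem_univ, true_and]
    constructor
    · intro hf x hx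
      have : span F (v '' (X : Set α)) ≤ LinearMap.ker f := by
        rw [span_le]
        rintro _ ⟨e, he, rfl⟩
        exact hf e he
      exact this hx
    · intro hf e he
      exact hf _ (subset_span (mem_image_of_mem v he))
  rw [h4]
  simp only [Polynomial.eval_mul, Polynomial.eval_pow, Polynomial.eval_neg, Polynomial.eval_one,
    Polynomial.eval_X]
  push_cast
  rw [← pow_mul, mul_left_comm, ← pow_add]
  congr 2
  rw [← Nat.mul_add]
  congr 1
  omega

theorem eval_pos_iff [Finite F] [FiniteDimensional F W] {M : Matroid α} [M.Finite] {v : α → W}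
    (h : Rep F M v) (k : ℕ) :
    0 < (charPoly M).eval ((Nat.card F : ℤ) ^ k) ↔
      ∃ f : W →ₗ[F] (Fin k → F), ∀ e ∈ M.E, f (v e) ≠ 0 := by
  have hfin : Finite (W →ₗ[F] (Fin k → F)) := Module.finite_of_finite F
  have h1 := crapo_rota h k
  have hq : (0 : ℤ) < (Nat.card F : ℤ) ^ (k * (finrank F W - rk M M.E)) := by
    have : 0 < Nat.card F := Nat.card_pos
    positivity
  rw [← mul_pos_iff_of_pos_left hq, ← h1]
  rw [Int.natCast_pos, Nat.card_pos_iff]
  constructor
  · rintro ⟨⟨f⟩, _⟩
    exact ⟨f.1, f.2⟩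
  · rintro ⟨f, hf⟩
    exact ⟨⟨⟨f, hf⟩⟩, inferInstance⟩

theorem critExp_le_iff [Finite F] [FiniteDimensional F W] {M : Matroid α} [M.Finite] {v : α → W}
    (h : Rep F M v) (k : ℕ) :
    critExp M (Nat.card F) ≤ k ↔ ∃ f : W →ₗ[F] (Fin k → F), ∀ e ∈ M.E, f (v e) ≠ 0 := by
  constructor
  · intro hle
    have hlt : critExp M (Nat.card F) < ((k + 1 : ℕ) : ℕ∞) := by
      refine lt_of_le_of_lt hle ?_
      exact_mod_cast Nat.lt_succ_self k
    rw [critExp] at hlt
    simp only [iInf_lt_iff] at hlt
    obtain ⟨j, hj, hjk⟩ := hlt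
    have hjk' : j ≤ k := by
      have : j < k + 1 := by exact_mod_cast hjk
      omega
    obtain ⟨f, hf⟩ := (eval_pos_iff h j).1 hj
    let g : (Fin j → F) →ₗ[F] (Fin k → F) :=
      { toFun := fun x i => if hi : i.1 < j then x ⟨i.1, hi⟩ else 0
        map_add' := by
          intro x y
          ext i
          by_cases hi : i.1 < j <;> simp [hi]
        map_smul' := by
          intro c x
          ext i
          by_cases hi : i.1 < j <;> simp [hi] }
    refine ⟨g.comp f, fun e he h0 => hf e he ?_⟩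
    ext i
    have := congrFun h0 ⟨i.1, lt_of_lt_of_le i.2 hjk'⟩
    simpa [g] using this
  · intro hf
    rw [critExp]
    exact iInf₂_le k ((eval_pos_iff h k).2 hf)

theorem lt_critExp_iff [Finite F] [FiniteDimensional F W] {M : Matroid α} [M.Finite] {v : α → W}
    (h : Rep F M v) (k : ℕ) :
    (k : ℕ∞) < critExp M (Nat.card F) ↔
      ∀ f : W →ₗ[F] (Fin k → F), ∃ e ∈ M.E, f (v e) = 0 := by
  rw [← not_le, critExp_le_iff h k]
  push Not
  rfl

theorem minor_critExp_le_iff [Finite F] [FiniteDimensional F W] {M : Matroid α} [M.Finite]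
    {v : α → W} (h : Rep F M v) (k : ℕ) (C D : Set α) (hC : C ⊆ M.E) :
    critExp ((M.contract C).delete D) (Nat.card F) ≤ k ↔
      ∃ f : W →ₗ[F] (Fin k → F), (∀ c ∈ C, f (v c) = 0) ∧
        ∀ e ∈ ((M.contract C).delete D).E, f (v e) ≠ 0 := by
  rw [critExp_le_iff (h.minor C D hC) k]
  constructor
  · rintro ⟨f, hf⟩
    refine ⟨f.comp (span F (v '' C)).mkQ, ?_, hf⟩
    intro c hc
    have : (span F (v '' C)).mkQ (v c) = 0 := by
      simpa using subset_span (mem_image_of_mem v hc)
    rw [LinearMap.comp_apply, this, map_zero]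
  · rintro ⟨f, hf1, hf2⟩
    refine ⟨(span F (v '' C)).liftQ f ?_, hf2⟩
    rw [span_le]
    rintro _ ⟨c, hc, rfl⟩
    exact hf1 c hc

end Pool.Agent.KS6_38.CE
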