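import Mathlib

namespace Pool.Agent.KS6_38.CE

open Set

variable {α : Type*} {β : Type*}

/-- The rank of the set `X` in the matroid `M`, as a natural number. -/
noncomputable def rk (M : Matroid α) (X : Set α) : ℕ := (M.eRk X).toNat

/-- `M` is simple: no loops and no two distinct parallel elements. -/
def IsSimple (M : Matroid α) : Prop := ∀ e ∈ M.E, ∀ f ∈ M.E, M.Indep {e, f}

/-- `M` is representable over the field `F`: its elements can be labelled by vectors of some
`F ^ n` so that independence in `M` is linear independence. -/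
def Representable (F : Type*) [Field F] (M : Matroid α) : Prop :=
  ∃ (n : ℕ) (v : α → (Fin n → F)), ∀ I ⊆ M.E, M.Indep I ↔ LinearIndepOn F v I

/-- The characteristic polynomial `p(M; x) = ∑ (-1) ^ |X| x ^ (r(M) - r(X))`, the sum being over
all subsets `X` of the ground set. -/
noncomputable def charPoly (M : Matroid α) : Polynomial ℤ :=
  ∑ᶠ X ∈ 𝒫 M.E, (-1) ^ X.ncard * Polynomial.X ^ (rk M M.E - rk M X)

/-- The critical exponent `c(M; q)`: the least `j` with `p(M; q ^ j) > 0`, and `∞` if there is
no such `j` (which happens when `M` has a loop, as then `p(M; x) = 0`). -/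
noncomputable def critExp (M : Matroid α) (q : ℕ) : ℕ∞ :=
  ⨅ j ∈ {j : ℕ | 0 < (charPoly M).eval ((q : ℤ) ^ j)}, (j : ℕ∞)

/-- Isomorphism of matroids. -/
def Iso (M : Matroid α) (N : Matroid β) : Prop :=
  ∃ e : M.E ≃ N.E, ∀ I : Set M.E, M.Indep ((↑) '' I) ↔ N.Indep ((↑) '' (e '' I))

/-- `S` is a simplification of `N`: it is the restriction of `N` to a set `T` of nonloops that
contains exactly one element of each parallel class. -/
def IsSimplification (S N : Matroid β) : Prop :=
  ∃ T : Set β, (∀ e ∈ T, N.IsNonloop e) ∧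
    (∀ f, N.IsNonloop f → ∃! e, e ∈ T ∧ (e = f ∨ ¬ N.Indep {e, f})) ∧ S = N.restrict T

/-- `N` is a quotient of `M`: same ground set, and every flat of `N` is a flat of `M`. -/
def IsQuotient (N M : Matroid β) : Prop := N.E = M.E ∧ ∀ G, N.IsFlat G → M.IsFlat G

/-- `K` is the cycle matroid of the complete graph on `n` vertices: its ground set is the set of
all edges, and a set of edges is independent iff it is acyclic. -/
def IsCompleteGraphMatroid (n : ℕ) (K : Matroid (Sym2 (Fin n))) : Prop :=
  K.E = (⊤ : SimpleGraph (Fin n)).edgeSet ∧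
    ∀ I ⊆ K.E, K.Indep I ↔ (SimpleGraph.fromEdgeSet I).IsAcyclic

/-- The flat `G` of `M` is modular. -/
def IsModularFlat (M : Matroid α) (G : Set α) : Prop :=
  M.IsFlat G ∧ ∀ G', M.IsFlat G' → rk M G + rk M G' = rk M (G ∪ G') + rk M (G ∩ G')

/-- `H` is a modular hyperplane of `M`: a modular flat of rank `r(M) - 1`. -/
def IsModularHyperplane (M : Matroid α) (H : Set α) : Prop :=
  IsModularFlat M H ∧ rk M H + 1 = rk M M.E

/-- `M` is normal (for the parameters `q`, `k`): it is isomorphic to the simplification of some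
quotient of the cycle matroid of the complete graph on `q ^ k + 1` vertices. -/
def IsNormal (q k : ℕ) (M : Matroid α) : Prop :=
  ∃ K N S : Matroid (Sym2 (Fin (q ^ k + 1))), IsCompleteGraphMatroid (q ^ k + 1) K ∧
    IsQuotient N K ∧ IsSimplification S N ∧ Iso M S

end Pool.Agent.KS6_38.CE
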