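import Pool.Agent.KS6_38.CE.Fan

/-!
# The density of binary matroids without a fan, and without a wheel
-/

set_option autoImplicit false

namespace Pool.Agent.KS6_38.CE

open Set Module Submodule

universe w

section step

variable {V : Type*} [AddCommGroup V] [Module (ZMod 2) V]

/-- contraction of the point `e` -/
theorem contract_step [DecidableEq V] (E : Finset V) (h0 : (0 : V) ∉ E) {e : V} (heE : e ∈ E)
    (L0 : V →ₗ[ZMod 2] ZMod 2) (hL0e : L0 e = 1) :
    ∃ E' : Finset (V ⧸ span (ZMod 2) {e}),
      (E' : Set (V ⧸ span (ZMod 2) {e})) ⊆ (span (ZMod 2) {e}).mkQ '' (E : Set V) ∧ 0 ∉ E' ∧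
      E.card ≤ 1 + (E.filter (fun x => x ≠ e ∧ x + e ∈ E ∧ L0 x = 1)).card + E'.card ∧
      E'.card < E.card ∧
      finrank (ZMod 2) (span (ZMod 2) (E' : Set (V ⧸ span (ZMod 2) {e}))) + 1 ≤
        finrank (ZMod 2) (span (ZMod 2) (E : Set V)) := by
  classical
  have he0 : e ≠ 0 := by
    intro h
    rw [h] at heE
    exact h0 heE
  set T := E.filter (fun x => x ≠ e ∧ x + e ∈ E ∧ L0 x = 1) with hTdef
  set p := (span (ZMod 2) {e}).mkQ with hp
  set E1 := E.erase e \ T with hE1
  set E' := E1.image p with hE'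
  have hker : ∀ x : V, p x = 0 → x = 0 ∨ x = e := fun x hx => mkQ_eq_zero hx
  have hE1E : ∀ x ∈ E1, x ∈ E ∧ x ≠ e ∧ x ∉ T := by
    intro x hx
    rw [hE1, Finset.mem_sdiff, Finset.mem_erase] at hx
    exact ⟨hx.1.2, hx.1.1, hx.2⟩
  have hinj : Set.InjOn p (E1 : Set V) := by
    intro x hx y hy hxy
    obtain ⟨hx1, hx2, hx3⟩ := hE1E x hx
    obtain ⟨hy1, hy2, hy3⟩ := hE1E y hy
    have h1 : p (x - y) = 0 := by
      rw [map_sub, hxy, sub_self]
    rcases hker _ h1 with h2 | h2
    · exact sub_eq_zero.1 h2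
    · exfalso
      have hxe : x = y + e := by
        rw [← h2]
        abel
      have hye : y = x + e := by
        rw [hxe, add_assoc, add_self', add_zero]
      rcases zmod2_cases (L0 y) with h3 | h3
      · apply hx3
        rw [hTdef, Finset.mem_filter]
        refine ⟨hx1, hx2, hye ▸ hy1, ?_⟩
        rw [hxe, map_add, h3, hL0e, zero_add]
      · apply hy3
        rw [hTdef, Finset.mem_filter]
        exact ⟨hy1, hy2, hxe ▸ hx1, h3⟩
  have hcard1 : E'.card = E1.card := Finset.card_image_of_injOn hinj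
  have h1 : (E.erase e).card + 1 = E.card := Finset.card_erase_add_one heE
  have hcard2 : E.card ≤ 1 + T.card + E1.card := by
    have h2 : (E.erase e).card ≤ T.card + E1.card := by
      have h3 : E.erase e ⊆ T ∪ E1 := by
        intro x hx
        rw [Finset.mem_union]
        by_cases hxT : x ∈ T
        · exact Or.inl hxT
        · exact Or.inr (Finset.mem_sdiff.2 ⟨hx, hxT⟩)
      exact (Finset.card_le_card h3).trans (Finset.card_union_le _ _)
    omega
  have hE1card : E1.card < E.card := by
    have h2 : E1.card ≤ (E.erase e).card := Finset.card_le_card Finset.sdiff_subset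
    omega
  have h0' : (0 : V ⧸ span (ZMod 2) {e}) ∉ E' := by
    intro hz
    obtain ⟨x, hx, hx0⟩ := Finset.mem_image.1 hz
    obtain ⟨hx1, hx2, hx3⟩ := hE1E x hx
    rcases hker x hx0 with h2 | h2
    · exact h0 (h2 ▸ hx1)
    · exact hx2 h2
  refine ⟨E', ?_, h0', by omega, by omega, ?_⟩
  · intro y hy
    rw [hE', Finset.coe_image] at hy
    obtain ⟨x, hx, rfl⟩ := hy
    exact ⟨x, (hE1E x hx).1, rfl⟩
  have hfd : FiniteDimensional (ZMod 2) (span (ZMod 2) (E : Set V)) :=
    FiniteDimensional.span_finset _ E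
  have h1 := LinearMap.finrank_range_add_finrank_ker (p.domRestrict (span (ZMod 2) (E : Set V)))
  have h2 : span (ZMod 2) (E' : Set (V ⧸ span (ZMod 2) {e})) ≤
      LinearMap.range (p.domRestrict (span (ZMod 2) (E : Set V))) := by
    rw [span_le]
    intro y hy
    rw [hE', Finset.coe_image] at hy
    obtain ⟨x, hx, rfl⟩ := hy
    exact ⟨⟨x, subset_span (hE1E x hx).1⟩, rfl⟩
  have h3 := Submodule.finrank_mono h2
  have h4 : 0 < finrank (ZMod 2) (LinearMap.ker (p.domRestrict (span (ZMod 2) (E : Set V)))) := by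
    rw [Module.finrank_pos_iff_exists_ne_zero]
    refine ⟨⟨⟨e, subset_span heE⟩, ?_⟩, ?_⟩
    · rw [LinearMap.mem_ker, LinearMap.domRestrict_apply]
      exact mkQ_self e
    · intro h5
      apply he0
      exact congrArg (fun z : LinearMap.ker (p.domRestrict (span (ZMod 2) (E : Set V))) =>
        ((z : span (ZMod 2) (E : Set V)) : V)) h5
  omega

/-- the functionals dual to a path -/
theorem IsPath.functionals {E : Set V} {t : ℕ → V} {j : ℕ} (h : IsPath E t j) :
    ∃ L : ℕ → (V →ₗ[ZMod 2] ZMod 2), ∀ i, ∀ m ≤ j, L i (t m) = if m = i then 1 else 0 := by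
  choose L hL using fun i : ℕ => h.exists_functional (fun m => if m = i then 1 else 0)
  exact ⟨L, hL⟩

end step

/-- binary simple matroids without a fan with `n + 2` spokes have density at most `2 ^ n` -/
theorem fan_density (n : ℕ) : ∀ (N : ℕ) (V : Type w) [AddCommGroup V] [Module (ZMod 2) V]
    (E : Finset V), E.card ≤ N → (0 : V) ∉ E → ¬ HasFan (n + 2) (E : Set V) →
    E.card ≤ 2 ^ n * finrank (ZMod 2) (span (ZMod 2) (E : Set V)) := by
  classical
  intro N
  induction N with
  | zero =>
    intro V _ _ E hE _ _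
    omega
  | succ N ih =>
    intro V _ _ E hEN h0 hno
    rcases E.eq_empty_or_nonempty with rfl | hne
    · simp
    obtain ⟨t, j, ht, hmax⟩ := exists_path E hne h0
    obtain ⟨L, hL⟩ := ht.functionals
    have hj : j ≤ n := by
      by_contra hcon
      exact hno (ht.hasFan (by omega))
    have hL0e : L 0 (t 0) = 1 := by
      have := hL 0 0 (Nat.zero_le _)
      simpa using this
    obtain ⟨E', hE'sub, h0', hcard, hlt, hrank⟩ :=
      contract_step E h0 (ht.mem 0 (Nat.zero_le _)) (L 0) hL0e
    set T := E.filter (fun x => x ≠ t 0 ∧ x + t 0 ∈ E ∧ L 0 x = 1) with hT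
    have hTcard : T.card + 1 ≤ 2 ^ n := by
      have ht0T : t 0 ∉ T := by
        rw [hT, Finset.mem_filter]
        tauto
      have h1 : (insert (t 0) T).card = T.card + 1 := Finset.card_insert_of_notMem ht0T
      rw [← h1]
      have hin : ∀ x ∈ insert (t 0) T, x ∈ span (ZMod 2) (range fun i : Fin (j + 1) => t i) ∧
          L 0 x = 1 := by
        intro x hx
        rw [Finset.mem_insert] at hx
        rcases hx with rfl | hx
        · exact ⟨subset_span ⟨⟨0, by omega⟩, rfl⟩, hL0e⟩
        · rw [hT, Finset.mem_filter] at hx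
          exact ⟨hmax x hx.1 hx.2.2.1, hx.2.2.2⟩
      have hinj : Set.InjOn (fun (x : V) (i : Fin j) => L (i + 1) x) (insert (t 0) T : Finset V) := by
        intro x hx y hy hxy
        obtain ⟨hx1, hx2⟩ := hin x hx
        obtain ⟨hy1, hy2⟩ := hin y hy
        rw [expand hL hx1, expand hL hy1]
        refine Finset.sum_congr rfl fun i hi => ?_
        rw [Finset.mem_range] at hi
        cases i with
        | zero => rw [hx2, hy2]
        | succ i =>
          have := congrFun hxy ⟨i, by omega⟩
          simp only at this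
          rw [this]
      have h2 := Finset.card_le_card_of_injOn (t := (Finset.univ : Finset (Fin j → ZMod 2))) _
        (fun x _ => Finset.mem_coe.2 (Finset.mem_univ _)) hinj
      rw [Finset.card_univ, Fintype.card_fun, ZMod.card, Fintype.card_fin] at h2
      exact h2.trans (Nat.pow_le_pow_right (by norm_num) hj)
    have hno' : ¬ HasFan (n + 2) (E' : Set (V ⧸ span (ZMod 2) {t 0})) := fun hf =>
      hno (HasFan.lift (ht.mem 0 (Nat.zero_le _)) (hf.mono hE'sub))
    have hIH := ih (V ⧸ span (ZMod 2) {t 0}) E' (by omega) h0' hno'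
    have hfin := Nat.mul_le_mul_left (2 ^ n) hrank
    rw [mul_add, mul_one] at hfin
    omega

section tri

variable {V : Type w} [AddCommGroup V] [Module (ZMod 2) V]

/-- the elements on a triangle with the end of a maximal path lie in the span of an initial
segment of the path -/
theorem last_le (n : ℕ) (E : Finset V) (hno : ¬ HasWheel (n + 3) (E : Set V)) {t : ℕ → V} {j : ℕ}
    (h : IsPath (E : Set V) t j)
    (hmax : ∀ y ∈ E, y + t 0 ∈ E → y ∈ span (ZMod 2) (range fun i : Fin (j + 1) => t i))
    {L : ℕ → (V →ₗ[ZMod 2] ZMod 2)} (hL : ∀ i, ∀ m ≤ j, L i (t m) = if m = i then 1 else 0)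
    {x : V} (hxE : x ∈ E) (hx0 : x ≠ t 0) (hxt : x + t 0 ∈ E) (hLx : L 0 x = 1) :
    ∀ i, 2 * n + 2 < i → i ≤ j → L i x = 0 := by
  classical
  set ell := Nat.findGreatest (fun i => L i x ≠ 0) j with hell
  set A : ℕ → ZMod 2 := fun i => ∑ m ∈ Finset.range (i + 1), L m x with hA
  have hexp : x = ∑ i ∈ Finset.range (j + 1), L i x • t i := expand hL (hmax x hxE hxt)
  have hl1 : L ell x = 1 := by
    have h1 : L ell x ≠ 0 := Nat.findGreatest_spec (P := fun i => L i x ≠ 0) (m := 0)
      (Nat.zero_le _) (by rw [hLx]; decide)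
    rcases zmod2_cases (L ell x) with h2 | h2
    · exact absurd h2 h1
    · exact h2
  have hl2 : ∀ i, ell < i → i ≤ j → L i x = 0 := by
    intro i hi hij
    by_contra hcon
    exact Nat.findGreatest_is_greatest (P := fun i => L i x ≠ 0) hi hij hcon
  have hl3 : ell ≤ j := Nat.findGreatest_le j
  have hl4 : 1 ≤ ell := by
    by_contra hcon
    have hl0 : ell = 0 := by omega
    apply hx0
    have h1 := hexp
    rw [Finset.sum_eq_single 0] at h1
    · rw [hLx, one_smul] at h1
      exact h1
    · intro i hi hi0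
      rw [hl2 i (by omega) (by have := Finset.mem_range.1 hi; omega), zero_smul]
    · intro h2
      exact absurd (Finset.mem_range.2 (Nat.succ_pos j)) h2
  have hA0 : A 0 = 1 := by
    simp only [hA]
    rw [zero_add, Finset.sum_range_one]
    exact hLx
  set Z1 := (Finset.range (ell - 1)).filter (fun i => A (i + 1) = 1) with hZ1
  set Z0 := (Finset.range (ell - 1)).filter (fun i => ¬ A (i + 1) = 1) with hZ0
  have hZ : Z1.card + Z0.card = ell - 1 := by
    have := Finset.card_filter_add_card_filter_not (s := Finset.range (ell - 1))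
      (fun i => A (i + 1) = 1)
    rw [Finset.card_range] at this
    exact this
  have h1 : Z1.card ≤ n := by
    by_contra hcon
    push Not at hcon
    apply hno
    refine wheel_of_many h hxE (fun i => L i x) hexp 0 (ell - 1) (by omega) ?_
      (insert 0 (Z1.image Nat.succ)) ?_ ?_
    · have h1 : ell - 1 + 1 = ell := by omega
      rw [h1]
      exact hl1
    · intro i hi
      rw [Finset.mem_insert, Finset.mem_image] at hi
      rw [← Finset.range_eq_Ico]
      rcases hi with rfl | ⟨i, hi, rfl⟩
      · exact ⟨le_rfl, Nat.zero_le _, hA0⟩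
      · rw [hZ1, Finset.mem_filter, Finset.mem_range] at hi
        exact ⟨Nat.zero_le _, by omega, hi.2⟩
    · rw [Finset.card_insert_of_notMem (by simp),
        Finset.card_image_of_injective _ Nat.succ_injective]
      omega
  have h2 : Z0.card ≤ n + 1 := by
    by_contra hcon
    push Not at hcon
    apply hno
    refine wheel_of_many h hxE (fun i => L i x) hexp 1 (ell - 1) (by omega) ?_
      (Z0.image Nat.succ) ?_ ?_
    · have h1 : ell - 1 + 1 = ell := by omega
      rw [h1]
      exact hl1
    · intro i hi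
      rw [Finset.mem_image] at hi
      obtain ⟨i, hi, rfl⟩ := hi
      rw [hZ0, Finset.mem_filter, Finset.mem_range] at hi
      refine ⟨by omega, by omega, ?_⟩
      have h2 : A (i + 1) = 0 := by
        rcases zmod2_cases (A (i + 1)) with h3 | h3
        · exact h3
        · exact absurd h3 hi.2
      have h3 : A (i + 1) = L 0 x + ∑ m ∈ Finset.Ico 1 (i.succ + 1), L m x := by
        simp only [hA]
        rw [Finset.range_eq_Ico, Finset.sum_eq_sum_Ico_succ_bot (by omega)]
      rw [h2, hLx] at h3
      rcases zmod2_cases (∑ m ∈ Finset.Ico 1 (i.succ + 1), L m x) with h4 | h4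
      · rw [h4] at h3
        exact absurd h3 (by decide)
      · exact h4
    · rw [Finset.card_image_of_injective _ Nat.succ_injective]
      omega
  intro i hi hij
  exact hl2 i (by omega) hij

/-- the number of triangles at the end of a maximal path -/
theorem card_triangles (n : ℕ) (E : Finset V) [DecidableEq V] (h00 : (0 : V) ∉ E)
    (hno : ¬ HasWheel (n + 3) (E : Set V)) {t : ℕ → V} {j : ℕ}
    (h : IsPath (E : Set V) t j)
    (hmax : ∀ y ∈ E, y + t 0 ∈ E → y ∈ span (ZMod 2) (range fun i : Fin (j + 1) => t i))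
    {L : ℕ → (V →ₗ[ZMod 2] ZMod 2)} (hL : ∀ i, ∀ m ≤ j, L i (t m) = if m = i then 1 else 0) :
    (E.filter (fun x => x ≠ t 0 ∧ x + t 0 ∈ E ∧ L 0 x = 1)).card ≤ 2 ^ n * (2 * n + 2) := by
  classical
  set e := t 0 with he
  have heE : e ∈ E := h.mem 0 (Nat.zero_le _)
  have he0 : e ≠ 0 := fun h' => h00 (h' ▸ heE)
  set p := (span (ZMod 2) {e}).mkQ with hp
  set T := E.filter (fun x => x ≠ e ∧ x + e ∈ E ∧ L 0 x = 1) with hT
  have hL0e : L 0 e = 1 := by
    have := hL 0 0 (Nat.zero_le _)
    simpa using this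
  have hTE : ∀ x ∈ T, x ∈ E ∧ x ≠ e ∧ x + e ∈ E ∧ L 0 x = 1 := by
    intro x hx
    rw [hT, Finset.mem_filter] at hx
    exact hx
  have hinj : Set.InjOn p (T : Set V) := by
    intro x hx y hy hxy
    have hx' := hTE x hx
    have hy' := hTE y hy
    have h1 : p (x - y) = 0 := by
      rw [map_sub, hxy, sub_self]
    rcases mkQ_eq_zero h1 with h2 | h2
    · exact sub_eq_zero.1 h2
    · exfalso
      have h3 : L 0 (x - y) = 0 := by
        rw [map_sub, hx'.2.2.2, hy'.2.2.2, sub_self]
      rw [h2, hL0e] at h3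
      exact absurd h3 (by decide)
  have hcard : (T.image p).card = T.card := Finset.card_image_of_injOn hinj
  rw [← hcard]
  have hnofan : ¬ HasFan (n + 2) ((T.image p : Finset _) : Set (V ⧸ span (ZMod 2) {e})) := by
    intro hf
    apply hno
    refine wheel_of_cone (Finset.mem_coe.2 heE) he0 (hf.mono ?_)
    rw [Finset.coe_image]
    apply image_mono
    intro x hx
    exact ⟨(hTE x hx).1, (hTE x hx).2.2.1⟩
  have h0T : (0 : V ⧸ span (ZMod 2) {e}) ∉ T.image p := by
    intro hz
    obtain ⟨x, hx, hx0⟩ := Finset.mem_image.1 hz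
    rcases mkQ_eq_zero hx0 with h2 | h2
    · exact h00 (h2 ▸ (hTE x hx).1)
    · exact (hTE x hx).2.1 h2
  have h1 := fan_density n (T.image p).card _ (T.image p) le_rfl h0T hnofan
  refine h1.trans (Nat.mul_le_mul_left _ ?_)
  have h2 : span (ZMod 2) ((T.image p : Finset _) : Set (V ⧸ span (ZMod 2) {e})) ≤
      span (ZMod 2) (range fun i : Fin (2 * n + 2) => p (t (i + 1))) := by
    rw [span_le, Finset.coe_image]
    rintro _ ⟨x, hx, rfl⟩
    obtain ⟨hx1, hx2, hx3, hx4⟩ := hTE x hx
    have h3 := last_le n E hno h hmax hL hx1 hx2 hx3 hx4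
    rw [SetLike.mem_coe, expand hL (hmax x hx1 hx3), map_sum]
    refine Submodule.sum_mem _ fun i hi => ?_
    rw [Finset.mem_range] at hi
    rw [map_smul]
    cases i with
    | zero =>
      rw [← he, hp, mkQ_self, smul_zero]
      exact zero_mem _
    | succ i =>
      by_cases hi2 : i < 2 * n + 2
      · exact Submodule.smul_mem _ _ (subset_span ⟨⟨i, hi2⟩, rfl⟩)
      · rw [h3 (i + 1) (by omega) (by omega), zero_smul]
        exact zero_mem _
  have hfd : FiniteDimensional (ZMod 2)
      (span (ZMod 2) (range fun i : Fin (2 * n + 2) => p (t (i + 1)))) :=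
    FiniteDimensional.span_of_finite _ (Set.finite_range _)
  refine (Submodule.finrank_mono h2).trans ?_
  have h5 := finrank_range_le_card (R := ZMod 2) (fun i : Fin (2 * n + 2) => p (t (i + 1)))
  rw [Fintype.card_fin] at h5
  exact h5

end tri

/-- **Density.** A simple binary matroid of rank `m` without a wheel with `r = n + 3` spokes has
at most `((r - 2) 2 ^ (r - 2) + 1) m` elements. -/
theorem wheel_density (n : ℕ) : ∀ (N : ℕ) (V : Type w) [AddCommGroup V] [Module (ZMod 2) V]
    (E : Finset V), E.card ≤ N → (0 : V) ∉ E → ¬ HasWheel (n + 3) (E : Set V) →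
    E.card ≤ ((n + 1) * 2 ^ (n + 1) + 1) * finrank (ZMod 2) (span (ZMod 2) (E : Set V)) := by
  classical
  intro N
  induction N with
  | zero =>
    intro V _ _ E hE _ _
    omega
  | succ N ih =>
    intro V _ _ E hEN h0 hno
    rcases E.eq_empty_or_nonempty with rfl | hne
    · simp
    obtain ⟨t, j, ht, hmax⟩ := exists_path E hne h0
    obtain ⟨L, hL⟩ := ht.functionals
    have hL0e : L 0 (t 0) = 1 := by
      have := hL 0 0 (Nat.zero_le _)
      simpa using this
    obtain ⟨E', hE'sub, h0', hcard, hlt, hrank⟩ :=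
      contract_step E h0 (ht.mem 0 (Nat.zero_le _)) (L 0) hL0e
    have hT := card_triangles n E h0 hno ht hmax hL
    have hno' : ¬ HasWheel (n + 3) (E' : Set (V ⧸ span (ZMod 2) {t 0})) := fun hf =>
      hno (HasWheel.lift (ht.mem 0 (Nat.zero_le _)) (hf.mono hE'sub))
    have hIH := ih (V ⧸ span (ZMod 2) {t 0}) E' (by omega) h0' hno'
    have hD : 2 ^ n * (2 * n + 2) = (n + 1) * 2 ^ (n + 1) := by ring
    rw [hD] at hT
    set K := (n + 1) * 2 ^ (n + 1) with hK
    have hfin := Nat.mul_le_mul_left (K + 1) hrank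
    rw [mul_add, mul_one] at hfin
    omega

end Pool.Agent.KS6_38.CE
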