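import Pool.Agent.KS6_38.CE.Dens

/-!
# Duality: a wheel in the dual configuration gives a wheel
-/

set_option autoImplicit false

namespace Pool.Agent.KS6_38.CE

open Set Module Submodule

section dual

variable {V : Type*} [AddCommGroup V] [Module (ZMod 2) V]

/-- The dual configuration: the unit vectors and the rows of the matrix `a`. -/
def dualConf {ι κ : Type*} [DecidableEq κ] (a : ι → κ → ZMod 2) : ι ⊕ κ → (κ → ZMod 2) :=
  Sum.elim a (fun j => Pi.single j 1)

/-- The configuration: the basis vectors and the columns of the matrix `a`. -/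
def primConf {ι κ : Type*} (b : ι → V) (y : κ → V) : ι ⊕ κ → V := Sum.elim b y

theorem wheel_of_dual {ι κ : Type*} [Fintype ι] [Fintype κ] [DecidableEq κ]
    {b : ι → V} (hb : LinearIndependent (ZMod 2) b) {y : κ → V} (a : ι → κ → ZMod 2)
    (hy : ∀ j, y j = ∑ i, a i j • b i) {r : ℕ} (hr : 3 ≤ r)
    (h : HasWheel r (range (dualConf a))) : HasWheel r (range (primConf b y)) := by
  classical
  obtain ⟨X, hX, s, ρ, hs, hρ, hind, hrim⟩ := h
  choose σ hσ using hs
  choose τ hτ using hρ
  set w := dualConf a with hw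
  set v := primConf b y with hv
  set U := span (ZMod 2) X with hU
  -- relations of `v` and functionals on the dual space
  have rel1 : ∀ L : (κ → ZMod 2) →ₗ[ZMod 2] ZMod 2, ∑ l, L (w l) • v l = 0 := by
    intro L
    rw [Fintype.sum_sum_type]
    have h1 : ∀ i, L (w (Sum.inl i)) = ∑ j, a i j * L (Pi.single j 1) := by
      intro i
      have h2 : w (Sum.inl i) = ∑ j, a i j • (Pi.single j (1 : ZMod 2) : κ → ZMod 2) := by
        funext k
        simp [hw, dualConf, Finset.sum_apply, Pi.single_apply]
      rw [h2, map_sum]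
      refine Finset.sum_congr rfl fun j _ => ?_
      rw [map_smul, smul_eq_mul]
    have h3 : ∑ j, L (w (Sum.inr j)) • v (Sum.inr j) =
        ∑ i, (∑ j, a i j * L (Pi.single j 1)) • b i := by
      have h4 : ∀ j, L (w (Sum.inr j)) • v (Sum.inr j) =
          ∑ i, (a i j * L (Pi.single j 1)) • b i := by
        intro j
        simp only [hw, hv, dualConf, primConf, Sum.elim_inr]
        rw [hy j, Finset.smul_sum]
        refine Finset.sum_congr rfl fun i _ => ?_
        rw [smul_smul, mul_comm]
      rw [Finset.sum_congr rfl fun j _ => h4 j, Finset.sum_comm]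
      refine Finset.sum_congr rfl fun i _ => ?_
      rw [Finset.sum_smul]
    rw [h3]
    have h5 : ∑ i, L (w (Sum.inl i)) • v (Sum.inl i) =
        ∑ i, (∑ j, a i j * L (Pi.single j 1)) • b i := by
      refine Finset.sum_congr rfl fun i _ => ?_
      rw [h1 i]
      rfl
    rw [h5]
    exact add_self' _
  have rel2 : ∀ C : ι ⊕ κ → ZMod 2, ∑ l, C l • v l = 0 →
      ∃ L : (κ → ZMod 2) →ₗ[ZMod 2] ZMod 2, ∀ l, C l = L (w l) := by
    intro C hC
    let L : (κ → ZMod 2) →ₗ[ZMod 2] ZMod 2 := Fintype.linearCombination (ZMod 2)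
      (fun j => C (Sum.inr j))
    have hLx : ∀ x, L x = ∑ j, x j * C (Sum.inr j) := by
      intro x
      simp [L, Fintype.linearCombination_apply]
    refine ⟨L, ?_⟩
    rw [Fintype.sum_sum_type] at hC
    have h3 : ∑ j, C (Sum.inr j) • v (Sum.inr j) =
        ∑ i, (∑ j, a i j * C (Sum.inr j)) • b i := by
      have h4 : ∀ j, C (Sum.inr j) • v (Sum.inr j) =
          ∑ i, (a i j * C (Sum.inr j)) • b i := by
        intro j
        simp only [hv, primConf, Sum.elim_inr]
        rw [hy j, Finset.smul_sum]
        refine Finset.sum_congr rfl fun i _ => ?_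
        rw [smul_smul, mul_comm]
      rw [Finset.sum_congr rfl fun j _ => h4 j, Finset.sum_comm]
      refine Finset.sum_congr rfl fun i _ => ?_
      rw [Finset.sum_smul]
    rw [h3] at hC
    have h5 : ∑ i, (C (Sum.inl i) + ∑ j, a i j * C (Sum.inr j)) • b i = 0 := by
      rw [← hC, ← Finset.sum_add_distrib]
      refine Finset.sum_congr rfl fun i _ => ?_
      rw [add_smul]
      rfl
    have h6 := (Fintype.linearIndependent_iff.1 hb) _ h5
    intro l
    cases l with
    | inl i =>
      rw [hLx]
      have h7 := h6 i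
      have h8 : C (Sum.inl i) = ∑ j, a i j * C (Sum.inr j) := by
        rw [add_eq_zero_iff_eq_neg, ZModModule.neg_eq_self] at h7
        exact h7
      rw [h8]
      rfl
    | inr j =>
      rw [hLx]
      simp [hw, dualConf, Pi.single_apply]
  -- functionals dual to the spokes
  have hfun : ∀ q : Fin r, ∃ L : (κ → ZMod 2) →ₗ[ZMod 2] ZMod 2, (∀ x ∈ U, L x = 0) ∧
      ∀ i, L (s i) = if i = q then 1 else 0 := by
    intro q
    have hli : LinearIndependent (ZMod 2) (fun i => U.mkQ (s i)) := by
      rw [Fintype.linearIndependent_iff]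
      intro g hg i
      have h1 : U.mkQ (∑ i, g i • s i) = 0 := by
        rw [map_sum, ← hg]
        refine Finset.sum_congr rfl fun i _ => ?_
        rw [map_smul]
      rw [Submodule.mkQ_apply, Submodule.Quotient.mk_eq_zero] at h1
      exact congrFun (hind g h1) i
    let B := Basis.span hli
    let f : span (ZMod 2) (range fun i => U.mkQ (s i)) →ₗ[ZMod 2] ZMod 2 :=
      B.constr (ZMod 2) (fun i => if i = q then 1 else 0)
    obtain ⟨g, hg⟩ := LinearMap.exists_extend f
    refine ⟨g.comp U.mkQ, fun x hx => ?_, fun i => ?_⟩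
    · have : U.mkQ x = 0 := by
        rw [Submodule.mkQ_apply, Submodule.Quotient.mk_eq_zero]
        exact hx
      rw [LinearMap.comp_apply, this, map_zero]
    · have h1 : f (B i) = if i = q then 1 else 0 := Basis.constr_basis _ _ _ _
      rw [← hg] at h1
      have h2 : ((B i : span (ZMod 2) (range fun i => U.mkQ (s i))) : (κ → ZMod 2) ⧸ U) =
          U.mkQ (s i) := congrArg Subtype.val (Basis.span_apply hli i)
      rw [LinearMap.comp_apply, Submodule.subtype_apply, h2] at h1
      exact h1
  choose L hLU hLs using hfun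
  -- cyclic successor
  let nx : Fin r → Fin r := fun i => ⟨((i : ℕ) + 1) % r, Nat.mod_lt _ (by omega)⟩
  have hnx : ∀ i, nx i ≠ i := by
    intro i h1
    have h2 := congrArg Fin.val h1
    simp only [nx] at h2
    by_cases h3 : (i : ℕ) + 1 < r
    · rw [Nat.mod_eq_of_lt h3] at h2
      omega
    · have h4 : (i : ℕ) + 1 = r := by omega
      rw [h4, Nat.mod_self] at h2
      omega
  have hnx_inj : Function.Injective nx := by
    intro i i' h1
    have h2 := congrArg Fin.val h1
    simp only [nx] at h2
    apply Fin.ext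
    by_cases h3 : (i : ℕ) + 1 < r <;> by_cases h3' : (i' : ℕ) + 1 < r
    · rw [Nat.mod_eq_of_lt h3, Nat.mod_eq_of_lt h3'] at h2
      omega
    · have h4 : (i' : ℕ) + 1 = r := by omega
      rw [h4, Nat.mod_self, Nat.mod_eq_of_lt h3] at h2
      omega
    · have h4 : (i : ℕ) + 1 = r := by omega
      rw [h4, Nat.mod_self, Nat.mod_eq_of_lt h3'] at h2
      omega
    · omega
  have hnx2 : ∀ i, nx (nx i) ≠ i := by
    intro i h1
    have h2 := congrArg Fin.val h1
    simp only [nx] at h2
    by_cases h3 : (i : ℕ) + 1 < r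
    · rw [Nat.mod_eq_of_lt h3] at h2
      by_cases h5 : (i : ℕ) + 1 + 1 < r
      · rw [Nat.mod_eq_of_lt h5] at h2
        omega
      · have h4 : (i : ℕ) + 1 + 1 = r := by omega
        rw [h4, Nat.mod_self] at h2
        omega
    · have h4 : (i : ℕ) + 1 = r := by omega
      rw [h4, Nat.mod_self, Nat.mod_eq_of_lt (by omega)] at h2
      omega
  have hLρ : ∀ q i, L q (ρ i) = (if i = q then 1 else 0) + (if nx i = q then 1 else 0) := by
    intro q i
    have h1 := hrim i (nx i) rfl
    have h2 := hLU q _ h1
    rw [map_sub, sub_eq_zero, map_add, hLs, hLs] at h2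
    exact h2
  have hLσ : ∀ q i, L q (w (σ i)) = if i = q then 1 else 0 := by
    intro q i
    rw [hσ]
    exact hLs q i
  have hLτ : ∀ q i, L q (w (τ i)) = (if i = q then 1 else 0) + (if nx i = q then 1 else 0) := by
    intro q i
    rw [hτ]
    exact hLρ q i
  -- labels are distinct
  have hτinj : Function.Injective τ := by
    intro i i' h1
    by_contra hne
    have h2 := hLτ i i
    have h3 := hLτ i i'
    rw [h1, h3, if_pos rfl, if_neg (hnx i), if_neg (fun h => hne h.symm)] at h2
    have h4 : nx i' = i := by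
      by_contra h5
      rw [if_neg h5] at h2
      exact absurd h2 (by decide)
    have h2' := hLτ i' i
    have h3' := hLτ i' i'
    rw [h1, h3', if_pos rfl, if_neg (hnx i'), if_neg hne] at h2'
    have h4' : nx i = i' := by
      by_contra h5
      rw [if_neg h5] at h2'
      exact absurd h2' (by decide)
    apply hnx2 i
    rw [h4', h4]
  have hστ : ∀ i i', σ i ≠ τ i' := by
    intro i i' h1
    have h2 := hLσ i' i
    rw [h1, hLτ, if_pos rfl, if_neg (hnx i')] at h2
    have h3 : i = i' := by
      by_contra h5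
      rw [if_neg h5] at h2
      exact absurd h2 (by decide)
    have h4 := hLσ (nx i') i
    rw [h1, hLτ, if_neg (hnx i').symm, if_pos rfl, if_neg (h3 ▸ (hnx i).symm)] at h4
    exact absurd h4 (by decide)
  set Y : Set (ι ⊕ κ) := {l | w l ∉ X ∧ l ∉ range σ ∧ l ∉ range τ} with hY
  have hσX : ∀ i, w (σ i) ∉ X := by
    intro i hi
    have h1 := hLU i _ (subset_span hi)
    rw [hLσ, if_pos rfl] at h1
    exact absurd h1 (by decide)
  have hτX : ∀ i, w (τ i) ∉ X := by
    intro i hi
    have h1 := hLU i _ (subset_span hi)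
    rw [hLτ, if_pos rfl, if_neg (hnx i)] at h1
    exact absurd h1 (by decide)
  refine ⟨v '' Y, ?_, fun i => v (τ i), fun i => v (σ (nx i)), fun i => ⟨_, rfl⟩,
    fun i => ⟨_, rfl⟩, ?_, ?_⟩
  · rintro _ ⟨l, -, rfl⟩
    exact ⟨l, rfl⟩
  · intro g hg
    rw [Finsupp.mem_span_image_iff_linearCombination] at hg
    obtain ⟨c, hc, hcg⟩ := hg
    have hcY : ∀ l, l ∉ Y → c l = 0 := by
      intro l hl
      by_contra h1
      exact hl (hc (Finsupp.mem_support_iff.2 h1))
    let C : ι ⊕ κ → ZMod 2 := fun l => c l + ∑ i, if τ i = l then g i else 0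
    have hC : ∑ l, C l • v l = 0 := by
      simp only [C, add_smul, Finset.sum_add_distrib]
      have h1 : ∑ l, c l • v l = Finsupp.linearCombination (ZMod 2) v c := by
        rw [Finsupp.linearCombination_apply, Finsupp.sum_fintype]
        intro l
        rw [zero_smul]
      have h2 : ∑ l, (∑ i, if τ i = l then g i else 0) • v l = ∑ i, g i • v (τ i) := by
        simp only [Finset.sum_smul]
        rw [Finset.sum_comm]
        refine Finset.sum_congr rfl fun i _ => ?_
        rw [Finset.sum_eq_single (τ i)]
        · rw [if_pos rfl]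
        · intro l _ hl
          rw [if_neg hl.symm, zero_smul]
        · intro h3
          exact absurd (Finset.mem_univ _) h3
      rw [h1, h2, hcg]
      exact add_self' _
    obtain ⟨L', hL'⟩ := rel2 C hC
    have hCσ : ∀ i, C (σ i) = 0 := by
      intro i
      simp only [C]
      rw [hcY (σ i) (fun h => h.2.1 ⟨i, rfl⟩), zero_add]
      refine Finset.sum_eq_zero fun i' _ => ?_
      rw [if_neg (hστ i i').symm]
    have hCτ : ∀ i, C (τ i) = g i := by
      intro i
      simp only [C]
      rw [hcY (τ i) (fun h => h.2.2 ⟨i, rfl⟩), zero_add, Finset.sum_eq_single i]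
      · rw [if_pos rfl]
      · intro i' _ hi'
        rw [if_neg (fun h => hi' (hτinj h))]
      · intro h3
        exact absurd (Finset.mem_univ _) h3
    have hL'U : ∀ x ∈ U, L' x = 0 := by
      intro x hx
      have h1 : U ≤ LinearMap.ker L' := by
        rw [hU, span_le]
        intro x hx
        obtain ⟨l, hl⟩ := hX hx
        rw [SetLike.mem_coe, LinearMap.mem_ker, ← hl, ← hL' l]
        simp only [C]
        rw [hcY l (fun h => h.1 (hl ▸ hx)), zero_add]
        refine Finset.sum_eq_zero fun i' _ => ?_
        rw [if_neg]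
        rintro rfl
        exact hτX i' (hl ▸ hx)
      exact h1 hx
    funext i
    rw [← hCτ i, hL' (τ i), hτ]
    have h1 := hL'U _ (hrim i (nx i) rfl)
    have h2 : ∀ q, L' (s q) = 0 := by
      intro q
      rw [← hσ, ← hL', hCσ]
    rw [map_sub, map_add, h2, h2, add_zero, sub_zero] at h1
    exact h1
  · intro i j hij
    have hj : j = nx i := Fin.ext hij
    rw [hj]
    have h1 := rel1 (L (nx i))
    set q := nx i with hq
    have hiq : i ≠ q := (hnx i).symm
    set F : Finset (ι ⊕ κ) := {σ q, τ i, τ q} with hF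
    have hrest : ∑ l ∈ Finset.univ \ F, L q (w l) • v l ∈ span (ZMod 2) (v '' Y) := by
      refine Submodule.sum_mem _ fun l hl => ?_
      rw [Finset.mem_sdiff, hF] at hl
      simp only [Finset.mem_univ, true_and, Finset.mem_insert, Finset.mem_singleton, not_or] at hl
      by_cases h0 : L q (w l) = 0
      · rw [h0, zero_smul]
        exact zero_mem _
      · refine Submodule.smul_mem _ _ (subset_span ⟨l, ⟨?_, ?_, ?_⟩, rfl⟩)
        · intro h2
          exact h0 (hLU q _ (subset_span h2))
        · rintro ⟨i', rfl⟩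
          apply h0
          rw [hLσ, if_neg]
          rintro rfl
          exact hl.1 rfl
        · rintro ⟨i', rfl⟩
          apply h0
          rw [hLτ, if_neg, if_neg, add_zero]
          · intro h2
            exact hl.2.1 (congrArg τ (hnx_inj h2))
          · rintro rfl
            exact hl.2.2 rfl
    have hsum : ∑ l ∈ F, L q (w l) • v l = v (σ q) + (v (τ i) + v (τ q)) := by
      rw [hF, Finset.sum_insert, Finset.sum_insert, Finset.sum_singleton]
      · rw [hLσ, if_pos rfl, hLτ, if_neg hiq, if_pos rfl, hLτ, if_pos rfl, if_neg (hnx q)]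
        simp
      · rw [Finset.mem_singleton]
        exact fun h => hiq (hτinj h)
      · rw [Finset.mem_insert, Finset.mem_singleton, not_or]
        exact ⟨hστ q i, hστ q q⟩
    have h3 := Finset.sum_sdiff (f := fun l => L q (w l) • v l) (Finset.subset_univ F)
    rw [h1, hsum, add_comm] at h3
    rw [ZModModule.sub_eq_add]
    have h4 := add_mem (zero_mem (span (ZMod 2) (v '' Y))) hrest
    rw [add_eq_zero_iff_eq_neg] at h3
    rw [h3]
    exact neg_mem hrest

end dual

end Pool.Agent.KS6_38.CE
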