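import Pool.Agent.KS6_38.CE.Wheel

/-!
# Fans: vector form of fan minors, contraction, cones
-/

set_option autoImplicit false

namespace Pool.Agent.KS6_38.CE

open Set Module Submodule

section fan

variable {V : Type*} [AddCommGroup V] [Module (ZMod 2) V]

/-- the vector form of a fan minor with `k` spokes -/
def HasFan (k : ℕ) (E : Set V) : Prop :=
  ∃ X ⊆ E, ∃ s ρ : ℕ → V, (∀ i < k, s i ∈ E) ∧ (∀ i, i + 1 < k → ρ i ∈ E) ∧
    (∀ g : ℕ → ZMod 2, ∑ i ∈ Finset.range k, g i • s i ∈ span (ZMod 2) X → ∀ i < k, g i = 0) ∧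
    ∀ i, i + 1 < k → ρ i + (s i + s (i + 1)) ∈ span (ZMod 2) X

theorem HasFan.mono {k : ℕ} {E E' : Set V} (h : HasFan k E) (hE : E ⊆ E') : HasFan k E' := by
  obtain ⟨X, hX, s, ρ, hs, hρ, h1, h2⟩ := h
  exact ⟨X, hX.trans hE, s, ρ, fun i hi => hE (hs i hi), fun i hi => hE (hρ i hi), h1, h2⟩

theorem mkQ_eq_zero {e x : V} (hx : (span (ZMod 2) {e}).mkQ x = 0) : x = 0 ∨ x = e := by
  have h1 : x ∈ span (ZMod 2) {e} := by
    rw [← Submodule.ker_mkQ (span (ZMod 2) {e})]
    exact hx
  obtain ⟨c, rfl⟩ := mem_span_singleton.1 h1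
  rcases zmod2_cases c with rfl | rfl
  · left
    simp
  · right
    simp

theorem mkQ_self (e : V) : (span (ZMod 2) {e}).mkQ e = 0 := by
  simpa using mem_span_singleton_self e

theorem HasFan.lift {k : ℕ} {E : Set V} {e : V} (he : e ∈ E)
    (h : HasFan k ((span (ZMod 2) {e}).mkQ '' E)) : HasFan k E := by
  set p := (span (ZMod 2) {e}).mkQ with hp
  obtain ⟨X', hX', s', ρ', hs', hρ', hind, hrim⟩ := h
  have hs2 : ∀ i, ∃ x, i < k → x ∈ E ∧ p x = s' i := by
    intro i
    by_cases hi : i < k
    · obtain ⟨x, hx, hx2⟩ := hs' i hi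
      exact ⟨x, fun _ => ⟨hx, hx2⟩⟩
    · exact ⟨0, fun h => absurd h hi⟩
  have hρ2 : ∀ i, ∃ x, i + 1 < k → x ∈ E ∧ p x = ρ' i := by
    intro i
    by_cases hi : i + 1 < k
    · obtain ⟨x, hx, hx2⟩ := hρ' i hi
      exact ⟨x, fun _ => ⟨hx, hx2⟩⟩
    · exact ⟨0, fun h => absurd h hi⟩
  choose s hs using hs2
  choose ρ hρ using hρ2
  set X : Set V := {x | x ∈ E ∧ p x ∈ span (ZMod 2) X'} with hX
  have heX : e ∈ X := by
    refine ⟨he, ?_⟩
    have : p e = 0 := mkQ_self e
    rw [this]
    exact zero_mem _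
  have key : ∀ v, p v ∈ span (ZMod 2) X' → v ∈ span (ZMod 2) X := by
    intro v hv
    have h1 : X' ⊆ p '' X := by
      intro x' hx'
      obtain ⟨x, hxE, rfl⟩ := hX' hx'
      exact ⟨x, ⟨hxE, subset_span hx'⟩, rfl⟩
    have h2 : p v ∈ (span (ZMod 2) X).map p := by
      rw [Submodule.map_span]
      exact span_mono h1 hv
    obtain ⟨w, hw, hwv⟩ := h2
    have h3 : v - w ∈ span (ZMod 2) {e} := by
      rw [← Submodule.ker_mkQ (span (ZMod 2) {e}), LinearMap.mem_ker, map_sub, sub_eq_zero]
      exact hwv.symm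
    have h4 : span (ZMod 2) {e} ≤ span (ZMod 2) X := by
      rw [span_le]
      rintro x rfl
      exact subset_span heX
    have h5 := add_mem (h4 h3) hw
    simpa using h5
  have key' : ∀ v, v ∈ span (ZMod 2) X → p v ∈ span (ZMod 2) X' := by
    intro v hv
    have : span (ZMod 2) X ≤ (span (ZMod 2) X').comap p := by
      rw [span_le]
      intro x hx
      exact hx.2
    exact this hv
  refine ⟨X, fun x hx => hx.1, s, ρ, fun i hi => (hs i hi).1, fun i hi => (hρ i hi).1, ?_, ?_⟩
  · intro g hg
    apply hind g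
    have h1 := key' _ hg
    rw [map_sum] at h1
    have h2 : ∑ i ∈ Finset.range k, g i • s' i = ∑ i ∈ Finset.range k, p (g i • s i) := by
      refine Finset.sum_congr rfl fun i hi => ?_
      rw [map_smul, (hs i (Finset.mem_range.1 hi)).2]
    rw [h2]
    exact h1
  · intro i hi
    apply key
    have h1 := hrim i hi
    rw [map_add, map_add, (hρ i hi).2, (hs i (by omega)).2, (hs (i + 1) (by omega)).2]
    exact h1

/-- a path is a fan -/
theorem IsPath.hasFan {E : Set V} {t : ℕ → V} {j k : ℕ} (h : IsPath E t j) (hk : k ≤ j + 1) :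
    HasFan k E := by
  refine ⟨∅, empty_subset _, t, fun i => t i + t (i + 1), fun i hi => h.mem i (by omega),
    fun i hi => h.edge i (by omega), ?_, ?_⟩
  · intro g hg i hi
    rw [span_empty, Submodule.mem_bot] at hg
    have h1 := h.li
    rw [Fintype.linearIndependent_iff] at h1
    have h2 := h1 (fun m => if (m : ℕ) < k then g m else 0) ?_ ⟨i, by omega⟩
    · simpa [hi] using h2
    · have h3 : ∑ m : Fin (j + 1), (if (m : ℕ) < k then g m else 0) • t m =
          ∑ m ∈ Finset.range (j + 1), (if m < k then g m else 0) • t m :=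
        (Finset.sum_range (fun m => (if m < k then g m else 0) • t m)).symm
      rw [h3, ← Finset.sum_subset (Finset.range_subset_range.2 hk)]
      · rw [← hg]
        refine Finset.sum_congr rfl fun m hm => ?_
        rw [if_pos (Finset.mem_range.1 hm)]
      · intro m _ hm
        rw [if_neg (by simpa using hm), zero_smul]
  · intro i _
    rw [add_self']
    exact zero_mem _

/-- **Cones.** If the elements of `E` that lie on a triangle with `e` contain, modulo `e`, a fan
with `n + 2` spokes, then `E` contains a wheel with `n + 3` spokes. -/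
theorem wheel_of_cone {n : ℕ} {E : Set V} {e : V} (he : e ∈ E) (he0 : e ≠ 0)
    (h : HasFan (n + 2) ((span (ZMod 2) {e}).mkQ '' {x | x ∈ E ∧ x + e ∈ E})) :
    HasWheel (n + 3) E := by
  classical
  set p := (span (ZMod 2) {e}).mkQ with hp
  set T : Set V := {x | x ∈ E ∧ x + e ∈ E} with hT
  have hTadd : ∀ x ∈ T, x + e ∈ T := by
    intro x hx
    refine ⟨hx.2, ?_⟩
    rw [add_assoc, add_self', add_zero]
    exact hx.1
  have hpe : ∀ x, p (x + e) = p x := by
    intro x
    rw [map_add, hp, mkQ_self, add_zero]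
  obtain ⟨X', hX', s', ρ', hs', hρ', hind, hrim⟩ := h
  obtain ⟨b, hbX, hbspan, hbli⟩ := exists_linearIndependent (ZMod 2) X'
  have hlift : ∀ x : b, ∃ y ∈ T, p y = x := fun x => hX' (hbX x.2)
  choose l hlT hlp using hlift
  set X : Set V := range l with hX
  have hXE : X ⊆ E := by
    rintro _ ⟨x, rfl⟩
    exact (hlT x).1
  have hpX : p '' X = b := by
    ext x
    constructor
    · rintro ⟨_, ⟨y, rfl⟩, rfl⟩
      rw [hlp]
      exact y.2
    · intro hx
      exact ⟨l ⟨x, hx⟩, ⟨⟨x, hx⟩, rfl⟩, hlp _⟩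
  have hinj : ∀ z ∈ span (ZMod 2) X, p z = 0 → z = 0 := by
    intro z hz hz0
    rw [hX, Finsupp.mem_span_range_iff_exists_finsupp] at hz
    obtain ⟨c, rfl⟩ := hz
    have h1 : Finsupp.linearCombination (ZMod 2) (Subtype.val : b → _) c = 0 := by
      rw [Finsupp.linearCombination_apply, ← hz0, Finsupp.sum, Finsupp.sum, map_sum]
      refine Finset.sum_congr rfl fun i _ => ?_
      rw [map_smul, hlp]
    have h2 : c = 0 := by
      have h3 := hbli
      rw [linearIndependent_iff] at h3
      exact h3 c h1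
    rw [h2]
    simp
  have heX : e ∉ span (ZMod 2) X := by
    intro h1
    exact he0 (hinj e h1 (mkQ_self e))
  have key : ∀ v, p v ∈ span (ZMod 2) X' → v ∈ span (ZMod 2) X ∨ v + e ∈ span (ZMod 2) X := by
    intro v hv
    have h2 : p v ∈ (span (ZMod 2) X).map p := by
      rw [Submodule.map_span, hpX, hbspan]
      exact hv
    obtain ⟨w, hw, hwv⟩ := h2
    have h3 : p (v - w) = 0 := by
      rw [map_sub, hwv, sub_self]
    rcases mkQ_eq_zero h3 with h4 | h4
    · left
      rw [sub_eq_zero.1 h4]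
      exact hw
    · right
      have h5 : v + e = w + (e + e) := by
        rw [sub_eq_iff_eq_add.1 h4]
        abel
      rw [h5, add_self', add_zero]
      exact hw
  have key' : ∀ v, v ∈ span (ZMod 2) X → p v ∈ span (ZMod 2) X' := by
    intro v hv
    rw [← hbspan, ← hpX, ← Submodule.map_span]
    exact mem_map_of_mem hv
  have hs2 : ∀ i, ∃ x, i < n + 2 → x ∈ T ∧ p x = s' i := by
    intro i
    by_cases hi : i < n + 2
    · obtain ⟨x, hx, hx2⟩ := hs' i hi
      exact ⟨x, fun _ => ⟨hx, hx2⟩⟩
    · exact ⟨0, fun h => absurd h hi⟩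
  choose s hs using hs2
  have hρ2 : ∀ i, ∃ x, i + 1 < n + 2 → x ∈ E ∧ x + (s i + s (i + 1)) ∈ span (ZMod 2) X := by
    intro i
    by_cases hi : i + 1 < n + 2
    · obtain ⟨x, hx, hx2⟩ := hρ' i hi
      have h1 : p (x + (s i + s (i + 1))) ∈ span (ZMod 2) X' := by
        rw [map_add, map_add, hx2, (hs i (by omega)).2, (hs (i + 1) (by omega)).2]
        exact hrim i hi
      rcases key _ h1 with h2 | h2
      · exact ⟨x, fun _ => ⟨hx.1, h2⟩⟩
      · refine ⟨x + e, fun _ => ⟨hx.2, ?_⟩⟩
        have h3 : x + e + (s i + s (i + 1)) = x + (s i + s (i + 1)) + e := by abel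
        rw [h3]
        exact h2
    · exact ⟨0, fun h => absurd h hi⟩
  choose ρ hρ using hρ2
  refine ⟨X, hXE, fun i => if (i : ℕ) < n + 2 then s i else e,
    fun i => if (i : ℕ) + 1 < n + 2 then ρ i else if (i : ℕ) < n + 2 then s i + e else s 0 + e,
    ?_, ?_, ?_, ?_⟩
  · intro i
    dsimp only
    split_ifs with hi
    · exact (hs i hi).1.1
    · exact he
  · intro i
    dsimp only
    split_ifs with hi hi2
    · exact (hρ i hi).1
    · exact (hs i hi2).1.2
    · exact (hs 0 (by omega)).1.2
  · intro g hg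
    rw [Fin.sum_univ_castSucc] at hg
    simp only [Fin.val_castSucc, Fin.val_last, lt_irrefl, if_false] at hg
    have hg2 : ∑ i : Fin (n + 2), g i.castSucc • s i + g (Fin.last (n + 2)) • e ∈
        span (ZMod 2) X := by
      refine (congrArg (· ∈ span (ZMod 2) X) ?_).mp hg
      congr 1
      refine Finset.sum_congr rfl fun i _ => ?_
      rw [if_pos i.2]
    have h1 := key' _ hg2
    rw [map_add, map_smul, hp, mkQ_self, smul_zero, add_zero, ← hp, map_sum] at h1
    let g' : ℕ → ZMod 2 := fun i => if hi : i < n + 2 then g (Fin.castSucc ⟨i, hi⟩) else 0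
    have hg' : ∀ i : Fin (n + 2), g' i = g i.castSucc := fun i => dif_pos i.2
    have h2 : ∑ i : Fin (n + 2), p (g i.castSucc • s i) =
        ∑ i ∈ Finset.range (n + 2), g' i • s' i := by
      rw [Finset.sum_range]
      refine Finset.sum_congr rfl fun i _ => ?_
      rw [map_smul, (hs i i.2).2, hg']
    rw [h2] at h1
    have h3 := hind g' h1
    have h4 : ∀ i : Fin (n + 2), g i.castSucc = 0 := by
      intro i
      rw [← hg']
      exact h3 i i.2
    have h5 : g (Fin.last (n + 2)) = 0 := by
      rcases zmod2_cases (g (Fin.last (n + 2))) with h5 | h5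
      · exact h5
      · exfalso
        apply heX
        rw [h5, one_smul] at hg2
        have h6 : ∑ i : Fin (n + 2), g i.castSucc • s i = 0 :=
          Finset.sum_eq_zero fun i _ => by rw [h4 i, zero_smul]
        rw [h6, zero_add] at hg2
        exact hg2
    funext i
    refine Fin.lastCases h5 (fun i => h4 i) i
  · intro i j hij
    dsimp only
    by_cases hi : (i : ℕ) + 1 < n + 2
    · have hj : (j : ℕ) = i + 1 := by
        rw [hij, Nat.mod_eq_of_lt (by omega)]
      have h1 : (if (i : ℕ) < n + 2 then s i else e) = s i := if_pos (by omega)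
      have h2 : (if (j : ℕ) < n + 2 then s j else e) = s ((i : ℕ) + 1) := by
        rw [hj, if_pos (by omega)]
      rw [if_pos hi, h1, h2, ZModModule.sub_eq_add]
      exact (hρ i hi).2
    · by_cases hi2 : (i : ℕ) < n + 2
      · have hj : (j : ℕ) = i + 1 := by
          rw [hij, Nat.mod_eq_of_lt (by omega)]
        have h1 : (if (i : ℕ) < n + 2 then s i else e) = s i := if_pos (by omega)
        have h2 : (if (j : ℕ) < n + 2 then s j else e) = e := if_neg (by omega)
        rw [if_neg hi, if_pos hi2, h1, h2, sub_self]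
        exact zero_mem _
      · have hi3 : (i : ℕ) = n + 2 := by omega
        have hj : (j : ℕ) = 0 := by
          rw [hij, hi3]
          simp
        have h1 : (if (i : ℕ) < n + 2 then s i else e) = e := if_neg hi2
        have h2 : (if (j : ℕ) < n + 2 then s j else e) = s 0 := by
          rw [hj, if_pos (by omega)]
        rw [if_neg hi, if_neg hi2, h1, h2]
        have h6 : s 0 + e - (e + s 0) = 0 := by abel
        rw [h6]
        exact zero_mem _

end fan

end Pool.Agent.KS6_38.CE
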