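import Pool.Agent.KS6_38.CE.Main

/-!
# The lower bound: projective geometries
-/

set_option autoImplicit false

namespace Pool.Agent.KS6_38.CE

open Set Module Submodule

/-- `k` bounds the critical exponents of all loopless binary matroids without a minor isomorphic
to the cycle matroid of the wheel with `r` spokes -/
def Bounds (r k : ℕ) : Prop :=
  ∀ (α : Type) (M : Matroid α), WheelFree r M → critExpPos M 2 ≤ k

/-- the star of the hub is an independent set with `r` elements -/
theorem star_indep {r : ℕ} {K : Matroid (Sym2 (Option (Fin r)))}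
    (hK : IsCycleMatroid (wheel r) K) :
    ∃ I, K.Indep I ∧ I.ncard = r := by
  classical
  let g : Fin r → Sym2 (Option (Fin r)) := fun i => s(none, some i)
  have hg : Function.Injective g := by
    intro i j hij
    simp only [g] at hij
    rw [Sym2.eq_iff] at hij
    rcases hij with ⟨-, h⟩ | ⟨h, -⟩
    · exact Option.some_injective _ h
    · exact absurd h (by simp)
  refine ⟨range g, ?_, ?_⟩
  · have hsub : range g ⊆ K.E := by
      rw [hK.1]
      rintro _ ⟨i, rfl⟩
      rw [SimpleGraph.mem_edgeSet, wheel, SimpleGraph.fromRel_adj]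
      exact ⟨by simp, Or.inl (Or.inl rfl)⟩
    have hdiag : ∀ i, ¬ (g i).IsDiag := by
      intro i
      simp [g]
    rw [hK.2 _ hsub, acyclic_iff' (F := ZMod 2) _ (by
      rintro _ ⟨i, rfl⟩
      exact hdiag i), linearIndepOn_range_iff hg, Fintype.linearIndependent_iff]
    intro c hc i
    have h1 := congrFun hc (some i)
    rw [Finset.sum_apply, Finset.sum_eq_single i] at h1
    · rw [Pi.smul_apply, smul_eq_mul, Pi.zero_apply, mul_eq_zero] at h1
      refine h1.resolve_right ?_
      have h2 := (dv_apply_ne_zero_iff (F := ZMod 2) (hdiag i) (some i)).2 (by simp [g])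
      exact h2
    · intro j _ hj
      rw [Pi.smul_apply]
      have h2 : (dv (sv (ZMod 2)) ∘ g) j (some i) = 0 := by
        by_contra h3
        have h4 := (dv_apply_ne_zero_iff (F := ZMod 2) (hdiag j) (some i)).1 h3
        simp only [g] at h4
        rw [Sym2.mem_iff] at h4
        rcases h4 with h4 | h4
        · exact absurd h4 (by simp)
        · exact hj (Option.some_injective _ h4).symm
      rw [h2, smul_zero]
    · intro h
      exact absurd (Finset.mem_univ _) h
  · rw [← Nat.card_coe_set_eq, Nat.card_range_of_injective hg, Nat.card_eq_fintype_card,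
      Fintype.card_fin]

/-- the projective geometry of rank `m` -/
noncomputable def pg (m : ℕ) : Matroid (Fin m → ZMod 2) :=
  linMatroid (ZMod 2) id {x | x ≠ 0} (Set.toFinite _)

theorem pg_rep (m : ℕ) : Rep (ZMod 2) (pg m) id := linMatroid_rep _ _ _

theorem pg_wheelFree {r : ℕ} (hr : 1 ≤ r) : WheelFree r (pg (r - 1)) := by
  have hfin : (pg (r - 1)).Finite := linMatroid_finite _ _ _
  refine ⟨hfin, ⟨r - 1, id, pg_rep _⟩, ?_, ?_⟩
  · rw [Matroid.loopless_iff_forall_isNonloop]
    intro e he
    rw [← Matroid.indep_singleton, pg_rep _ _ (by simpa using he), linearIndepOn_singleton_iff]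
    exact he
  · intro N hN K hK hiso
    obtain ⟨I, hI, hIc⟩ := star_indep hK
    obtain ⟨e, he⟩ := hiso
    have hIE := hI.subset_ground
    set J : Set N.E := e ⁻¹' ((↑) ⁻¹' I) with hJ
    have h1 : ((↑) '' (e '' J) : Set (Sym2 (Option (Fin r)))) = I := by
      rw [hJ, Equiv.image_preimage, Subtype.image_preimage_coe, Set.inter_eq_right]
      exact hIE
    have h2 : N.Indep ((↑) '' J) := by
      rw [he J, h1]
      exact hI
    have h3 := h2.of_isMinor hN
    have h4 : ((↑) '' J : Set (Fin (r - 1) → ZMod 2)).ncard = r := by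
      have h5 : ((↑) '' (e '' J) : Set (Sym2 (Option (Fin r)))).ncard = J.ncard := by
        rw [Set.ncard_image_of_injective _ Subtype.val_injective,
          Set.ncard_image_of_injective _ e.injective]
      rw [h1, hIc] at h5
      rw [Set.ncard_image_of_injective _ Subtype.val_injective]
      exact h5.symm
    have h5 := (pg_rep (r - 1) _ h3.subset_ground).1 h3
    have h6 := finrank_span_of_linearIndepOn h5 (Set.toFinite _)
    rw [h4] at h6
    have h7 := Submodule.finrank_le
      (span (ZMod 2) ((id : (Fin (r - 1) → ZMod 2) → _) '' ((↑) '' J)))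
    rw [h6, Module.finrank_fin_fun] at h7
    omega

theorem lower {r k : ℕ} (hr : 2 ≤ r) (h : Bounds r k) : r - 1 ≤ k := by
  have h1 := h _ _ (pg_wheelFree (r := r) (by omega))
  have hfin : (pg (r - 1)).Finite := linMatroid_finite _ _ _
  have hk : 1 ≤ k := by
    have := (one_le_critExpPos (pg (r - 1)) 2).trans h1
    exact_mod_cast this
  have hcard : Nat.card (ZMod 2) = 2 := by simp
  have h2 := critExpPos_le_iff (pg_rep (r - 1)) k hk
  rw [hcard] at h2
  obtain ⟨f, hf⟩ := h2.1 h1
  have hinj : Function.Injective f := by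
    rw [← LinearMap.ker_eq_bot, LinearMap.ker_eq_bot']
    intro x hx
    by_contra hne
    exact hf x hne hx
  have h3 := LinearMap.finrank_le_finrank_of_injective hinj
  rwa [Module.finrank_fin_fun, Module.finrank_fin_fun] at h3

theorem main (r : ℕ) (hr : 3 ≤ r) :
    Bounds r (4 * (r - 1)) ∧ (∀ k : ℕ, r ^ 3 * 4 ^ r ≤ 2 ^ (k + 1) → Bounds r k) ∧
      (∀ k : ℕ, Bounds r k → r - 1 ≤ k) := by
  obtain ⟨n, rfl⟩ : ∃ n, r = n + 3 := ⟨r - 3, by omega⟩
  refine ⟨?_, ?_, fun k hk => lower (by omega) hk⟩
  · intro α M hM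
    rw [show n + 3 - 1 = n + 2 by omega]
    exact critExpPos_le n _ (num1 n) M hM
  · intro k hk α M hM
    exact critExpPos_le n _ (num2 n k hk) M hM

end Pool.Agent.KS6_38.CE
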