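import Pool.Agent.KS6_38.CE.Crit

namespace Pool.Agent.KS6_38.CE

open Set Module Submodule

/-- The critical exponent `c(M; q)`: the least `j ≥ 1` with `p(M; q ^ j) > 0`. -/
noncomputable def critExpPos {α : Type} (M : Matroid α) (q : ℕ) : ℕ∞ :=
  ⨅ j ∈ {j : ℕ | 1 ≤ j ∧ 0 < (charPoly M).eval ((q : ℤ) ^ j)}, (j : ℕ∞)

variable {F : Type} [Field F] {α : Type} {M : Matroid α} {W : Type*} [AddCommGroup W] [Module F W]
  {v : α → W}

/-- Crapo and Rota: `critExpPos` is the least `c ≥ 1` such that some linear map to `F ^ c` has no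
zero in the point set. -/
theorem critExpPos_le_iff [Finite F] [FiniteDimensional F W] [M.Finite]
    (h : Rep F M v) (c : ℕ) (hc : 1 ≤ c) :
    critExpPos M (Nat.card F) ≤ c ↔ ∃ f : W →ₗ[F] (Fin c → F), ∀ e ∈ M.E, f (v e) ≠ 0 := by
  constructor
  · intro hle
    have h1 : critExp M (Nat.card F) ≤ c := by
      refine le_trans ?_ hle
      refine le_iInf₂ fun j hj => ?_
      exact (critExp_le_iff h j).2 ((eval_pos_iff h j).1 hj.2)
    exact (critExp_le_iff h c).1 h1
  · intro hf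
    exact iInf₂_le c ⟨hc, (eval_pos_iff h c).2 hf⟩

theorem one_le_critExpPos {α : Type} (M : Matroid α) (q : ℕ) : 1 ≤ critExpPos M q := by
  refine le_iInf₂ fun j hj => ?_
  exact_mod_cast hj.1

end Pool.Agent.KS6_38.CE
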