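import Pool.Agent.KS6_38.CE.Minor
import Pool.Agent.KS6_38.CE.Tug

/-!
# The critical exponent of binary matroids without a wheel minor
-/

set_option autoImplicit false

namespace Pool.Agent.KS6_38.CE

open Set Module Submodule

universe w

/-- colouring: a simple binary matroid without a wheel has a linear map to `F_2 ^ c` without
zeros in it, if `2 ^ c` exceeds the bound for the small cocircuits -/
theorem exists_map (n c : ℕ) (hc : 8 * (n + 3) * ((dc n + 1) * dc n) + 2 < 2 ^ c) :
    ∀ (N : ℕ) (V : Type w) [AddCommGroup V] [Module (ZMod 2) V] (E : Finset V), E.card ≤ N →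
      (0 : V) ∉ E → ¬ HasWheel (n + 3) (E : Set V) →
      ∃ f : V →ₗ[ZMod 2] (Fin c → ZMod 2), ∀ e ∈ E, f e ≠ 0 := by
  classical
  intro N
  induction N with
  | zero =>
    intro V _ _ E hE _ _
    have : E = ∅ := Finset.card_eq_zero.1 (by omega)
    subst this
    exact ⟨0, fun e he => absurd he (Finset.notMem_empty e)⟩
  | succ N ih =>
    intro V _ _ E hEN h0 hno
    rcases E.eq_empty_or_nonempty with rfl | hne
    · exact ⟨0, fun e he => absurd he (Finset.notMem_empty e)⟩
    obtain ⟨h, ⟨x, hx⟩, hcard⟩ := small_cocircuit n E hne h0 hno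
    set C := E.filter (fun x => h x = 1) with hC
    have hlt : (E \ C).card < E.card := by
      apply Finset.card_lt_card
      rw [Finset.ssubset_iff_of_subset Finset.sdiff_subset]
      refine ⟨x, (Finset.mem_filter.1 hx).1, fun h => (Finset.mem_sdiff.1 h).2 hx⟩
    have hsub : ((E \ C : Finset V) : Set V) ⊆ (E : Set V) := fun y hy =>
      Finset.mem_coe.2 (Finset.mem_sdiff.1 (Finset.mem_coe.1 hy)).1
    obtain ⟨f, hf⟩ := ih V (E \ C) (by omega)
      (fun h => h0 (Finset.mem_sdiff.1 h).1) (fun hw => hno (hw.mono hsub))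
    -- a value that is not taken on `C`
    obtain ⟨a, ha⟩ : ∃ a : Fin c → ZMod 2, a ∉ C.image f := by
      by_contra hcon
      push Not at hcon
      have h1 : (Finset.univ : Finset (Fin c → ZMod 2)).card ≤ (C.image f).card :=
        Finset.card_le_card fun a _ => hcon a
      have h2 : (C.image f).card ≤ C.card := Finset.card_image_le
      rw [Finset.card_univ, Fintype.card_fun, ZMod.card, Fintype.card_fin] at h1
      omega
    refine ⟨f + h.smulRight a, fun e he => ?_⟩
    rw [LinearMap.add_apply, LinearMap.smulRight_apply]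
    by_cases heC : e ∈ C
    · have h1 : h e = 1 := (Finset.mem_filter.1 heC).2
      rw [h1, one_smul]
      intro h2
      apply ha
      rw [Finset.mem_image]
      refine ⟨e, heC, ?_⟩
      have h3 := add_eq_zero_iff_eq_neg.1 h2
      rw [h3]
      funext i
      exact ZModModule.neg_eq_self (a i)
    · have h1 : h e = 0 := by
        rcases zmod2_cases (h e) with h2 | h2
        · exact h2
        · exact absurd (Finset.mem_filter.2 ⟨he, h2⟩) heC
      rw [h1, zero_smul, add_zero]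
      exact hf e (Finset.mem_sdiff.2 ⟨he, heC⟩)

/-- the matroid `M` is loopless, finite and binary and has no minor isomorphic to the cycle
matroid of the wheel with `r` spokes -/
def WheelFree (r : ℕ) {α : Type} (M : Matroid α) : Prop :=
  M.Finite ∧ Representable (ZMod 2) M ∧ M.Loopless ∧
    ∀ N : Matroid α, N.IsMinor M → ∀ K : Matroid (Sym2 (Option (Fin r))),
      IsCycleMatroid (wheel r) K → ¬ Iso N K

theorem exists_cycleMatroid (r : ℕ) :
    ∃ K : Matroid (Sym2 (Option (Fin r))), IsCycleMatroid (wheel r) K := by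
  classical
  refine ⟨linMatroid (ZMod 2) (dv (sv (ZMod 2))) (wheel r).edgeSet (Set.toFinite _), rfl,
    fun I hI => ?_⟩
  rw [acyclic_iff' (F := ZMod 2) I (fun e he => (wheel r).not_isDiag_of_mem_edgeSet (hI he))]
  exact and_iff_right hI

theorem critExpPos_le (n c : ℕ) (hc : 8 * (n + 3) * ((dc n + 1) * dc n) + 2 < 2 ^ c)
    {α : Type} (M : Matroid α) (hM : WheelFree (n + 3) M) : critExpPos M 2 ≤ c := by
  classical
  obtain ⟨hfin, ⟨d, v, hv⟩, hloop, hminor⟩ := hM
  have hrep : Rep (ZMod 2) M v := hv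
  obtain ⟨K, hK⟩ := exists_cycleMatroid (n + 3)
  have hnoW : ¬ HasWheel (n + 3) (v '' M.E) := by
    intro hw
    obtain ⟨N, hN, hiso⟩ := exists_wheel_minor hrep (by omega) hw hK
    exact hminor N hN K hK hiso
  have hEfin : (v '' M.E).Finite := M.ground_finite.image v
  set E : Finset (Fin d → ZMod 2) := hEfin.toFinset with hE
  have hEc : (E : Set (Fin d → ZMod 2)) = v '' M.E := by simp [hE]
  have h0 : (0 : Fin d → ZMod 2) ∉ E := by
    intro h
    rw [hE, Set.Finite.mem_toFinset] at h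
    obtain ⟨e, he, he0⟩ := h
    have h1 : M.Indep {e} := (M.isNonloop_of_loopless he).indep
    have h2 := (hv {e} (by simpa using he)).1 h1
    rw [linearIndepOn_singleton_iff] at h2
    exact h2 he0
  obtain ⟨f, hf⟩ := exists_map n c hc E.card _ E le_rfl h0 (by rw [hEc]; exact hnoW)
  have hpos : 1 ≤ c := by
    by_contra h
    have : c = 0 := by omega
    subst this
    simp at hc
  have hcard : Nat.card (ZMod 2) = 2 := by simp
  have h1 := (critExpPos_le_iff hrep c hpos).2 ⟨f, fun e he => hf (v e) (by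
    rw [hE, Set.Finite.mem_toFinset]
    exact mem_image_of_mem v he)⟩
  rw [hcard] at h1
  exact h1

/-! ### the numerical inequalities -/

theorem num1 (n : ℕ) : 8 * (n + 3) * ((dc n + 1) * dc n) + 2 < 2 ^ (4 * (n + 2)) := by
  have h1 : ∀ x : ℕ, (x + 3) * (x + 1) * (2 * x + 3) + 2 ≤ 4 ^ (x + 2) := by
    intro x
    induction x with
    | zero => norm_num
    | succ x ih =>
      rw [show x + 1 + 2 = (x + 2) + 1 by ring, pow_succ]
      nlinarith [Nat.zero_le (x ^ 3), Nat.zero_le (x ^ 2)]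
  have h2 : (n + 3) * (n + 1) * (2 * n + 3) + 1 ≤ 4 ^ (n + 2) := by
    have := h1 n
    omega
  have h3 : 2 ≤ 2 ^ (n + 1) := by
    rw [pow_succ]
    have : 1 ≤ 2 ^ n := Nat.one_le_two_pow
    omega
  have h4 : 2 ^ (4 * (n + 2)) = 4 * (4 ^ (n + 2)) * (2 ^ (n + 1) * 2 ^ (n + 1)) := by
    rw [show (4 : ℕ) = 2 ^ 2 by norm_num, ← pow_mul, ← pow_add, ← pow_add, ← pow_add]
    congr 1
    ring
  rw [h4, dc]
  set y := 2 ^ (n + 1) with hy
  have h5 : 2 * ((n + 1) * y + 1) ≤ (2 * n + 3) * y := by nlinarith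
  calc 8 * (n + 3) * (((n + 1) * y + 1) * ((n + 1) * y)) + 2
      = 4 * (n + 3) * ((n + 1) * y) * (2 * ((n + 1) * y + 1)) + 2 := by ring
    _ ≤ 4 * (n + 3) * ((n + 1) * y) * ((2 * n + 3) * y) + 2 := by
        have := Nat.mul_le_mul_left (4 * (n + 3) * ((n + 1) * y)) h5
        omega
    _ = 4 * ((n + 3) * (n + 1) * (2 * n + 3)) * (y * y) + 2 := by ring
    _ < 4 * ((n + 3) * (n + 1) * (2 * n + 3) + 1) * (y * y) := by nlinarith
    _ ≤ 4 * 4 ^ (n + 2) * (y * y) := Nat.mul_le_mul_right _ (Nat.mul_le_mul_left _ h2)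

theorem num2 (n k : ℕ) (hk : (n + 3) ^ 3 * 4 ^ (n + 3) ≤ 2 ^ (k + 1)) :
    8 * (n + 3) * ((dc n + 1) * dc n) + 2 < 2 ^ k := by
  have h3 : 2 ≤ 2 ^ (n + 1) := by
    rw [pow_succ]
    have : 1 ≤ 2 ^ n := Nat.one_le_two_pow
    omega
  have h4 : 4 ^ (n + 3) = 16 * (2 ^ (n + 1) * 2 ^ (n + 1)) := by
    rw [show (4 : ℕ) = 2 ^ 2 by norm_num, show (16 : ℕ) = 2 ^ 4 by norm_num, ← pow_mul,
      ← pow_add, ← pow_add]
    congr 1
    ring
  rw [h4, pow_succ 2 k] at hk
  rw [dc]
  set y := 2 ^ (n + 1) with hy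
  set z := 2 ^ k with hz
  have h5 : 8 * (n + 3) * (((n + 1) * y + 1) * ((n + 1) * y)) + 2 <
      8 * ((n + 3) ^ 3 * (y * y)) := by
    nlinarith [mul_pos (show 0 < n + 3 by omega) (show 0 < y by omega),
      Nat.zero_le (n * y * y), Nat.zero_le (n ^ 2 * y * y), Nat.zero_le (n * y),
      mul_le_mul h3 h3 (by norm_num) (by omega), Nat.zero_le (n ^ 2 * y)]
  nlinarith

end Pool.Agent.KS6_38.CE
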