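import Mathlib

namespace Pool.Agent.KS6_38.CE

open Set Module Submodule

section basics

variable {V : Type*} [AddCommGroup V] [Module (ZMod 2) V]

theorem zmod2_cases (a : ZMod 2) : a = 0 ∨ a = 1 := by
  revert a
  decide

theorem add_self' (x : V) : x + x = 0 := ZModModule.add_self x

/-- the vector form of a wheel minor with `r` spokes -/
def HasWheel (r : ℕ) (E : Set V) : Prop :=
  ∃ X ⊆ E, ∃ s ρ : Fin r → V, (∀ i, s i ∈ E) ∧ (∀ i, ρ i ∈ E) ∧
    (∀ g : Fin r → ZMod 2, ∑ i, g i • s i ∈ span (ZMod 2) X → g = 0) ∧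
    ∀ i j : Fin r, (j : ℕ) = ((i : ℕ) + 1) % r → ρ i - (s i + s j) ∈ span (ZMod 2) X

theorem HasWheel.mono {r : ℕ} {E E' : Set V} (h : HasWheel r E) (hE : E ⊆ E') :
    HasWheel r E' := by
  obtain ⟨X, hX, s, ρ, hs, hρ, h1, h2⟩ := h
  exact ⟨X, hX.trans hE, s, ρ, fun i => hE (hs i), fun i => hE (hρ i), h1, h2⟩

theorem HasWheel.lift {r : ℕ} {E : Set V} {e : V} (he : e ∈ E)
    (h : HasWheel r ((span (ZMod 2) {e}).mkQ '' E)) : HasWheel r E := by
  set p := (span (ZMod 2) {e}).mkQ with hp
  obtain ⟨X', hX', s', ρ', hs', hρ', hind, hrim⟩ := h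
  choose s hsE hs using hs'
  choose ρ hρE hρ using hρ'
  set X : Set V := {x | x ∈ E ∧ p x ∈ span (ZMod 2) X'} with hX
  have heX : e ∈ X := by
    refine ⟨he, ?_⟩
    have : p e = 0 := by
      rw [hp]
      simpa using mem_span_singleton_self e
    rw [this]
    exact zero_mem _
  have key : ∀ v, p v ∈ span (ZMod 2) X' → v ∈ span (ZMod 2) X := by
    intro v hv
    have h1 : X' ⊆ p '' X := by
      intro x' hx'
      obtain ⟨x, hxE, rfl⟩ := hX' hx'
      exact ⟨x, ⟨hxE, subset_span hx'⟩, rfl⟩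
    have h2 : p v ∈ (span (ZMod 2) X).map p := by
      rw [Submodule.map_span]
      exact span_mono h1 hv
    obtain ⟨w, hw, hwv⟩ := h2
    have h3 : v - w ∈ span (ZMod 2) {e} := by
      rw [← Submodule.ker_mkQ (span (ZMod 2) {e}), LinearMap.mem_ker, map_sub, sub_eq_zero]
      exact hwv.symm
    have h4 : span (ZMod 2) {e} ≤ span (ZMod 2) X := by
      rw [span_le]
      rintro x rfl
      exact subset_span heX
    have h5 := add_mem (h4 h3) hw
    simpa using h5
  have key' : ∀ v, v ∈ span (ZMod 2) X → p v ∈ span (ZMod 2) X' := by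
    intro v hv
    have : span (ZMod 2) X ≤ (span (ZMod 2) X').comap p := by
      rw [span_le]
      intro x hx
      exact hx.2
    exact this hv
  refine ⟨X, fun x hx => hx.1, s, ρ, hsE, hρE, ?_, ?_⟩
  · intro g hg
    apply hind g
    have := key' _ hg
    rw [map_sum] at this
    convert this using 2 with i
    rw [map_smul, hs]
  · intro i j hij
    apply key
    have := hrim i j hij
    rw [map_sub, map_add, hρ, hs, hs]
    exact this

/-- an independent path -/
structure IsPath (E : Set V) (t : ℕ → V) (j : ℕ) : Prop where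
  li : LinearIndependent (ZMod 2) (fun i : Fin (j + 1) => t i)
  mem : ∀ i ≤ j, t i ∈ E
  edge : ∀ i < j, t i + t (i + 1) ∈ E

theorem IsPath.exists_functional {E : Set V} {t : ℕ → V} {j : ℕ} (h : IsPath E t j)
    (a : ℕ → ZMod 2) : ∃ L : V →ₗ[ZMod 2] ZMod 2, ∀ i ≤ j, L (t i) = a i := by
  let b := Basis.span h.li
  let f : span (ZMod 2) (range fun i : Fin (j + 1) => t i) →ₗ[ZMod 2] ZMod 2 :=
    b.constr (ZMod 2) (fun i => a i)
  obtain ⟨g, hg⟩ := LinearMap.exists_extend f
  refine ⟨g, fun i hi => ?_⟩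
  have h1 : f (b ⟨i, by omega⟩) = a i := by
    rw [show f (b ⟨i, by omega⟩) = (b.constr (ZMod 2) (fun i : Fin (j + 1) => a i))
      (b ⟨i, by omega⟩) from rfl, Basis.constr_basis]
  rw [← hg] at h1
  have h2 : ((b ⟨i, by omega⟩ : span (ZMod 2) (range fun i : Fin (j + 1) => t i)) : V) = t i := by
    rw [show b = Basis.span h.li from rfl, Basis.span_apply]
  rw [LinearMap.comp_apply, Submodule.subtype_apply, h2] at h1
  exact h1

theorem card_filter_succ_mem {S : Finset ℕ} {i : ℕ} (h : i ∈ S) :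
    (S.filter (· < i + 1)).card = (S.filter (· < i)).card + 1 := by
  have : S.filter (· < i + 1) = insert i (S.filter (· < i)) := by
    ext x
    simp only [Finset.mem_filter, Finset.mem_insert]
    constructor
    · rintro ⟨h1, h2⟩
      rcases Nat.lt_succ_iff_lt_or_eq.1 h2 with h3 | h3
      · exact Or.inr ⟨h1, h3⟩
      · exact Or.inl h3
    · rintro (rfl | h1)
      · exact ⟨h, Nat.lt_succ_self _⟩
      · exact ⟨h1.1, by omega⟩
  rw [this, Finset.card_insert_of_notMem (by simp)]

theorem card_filter_succ_notMem {S : Finset ℕ} {i : ℕ} (h : i ∉ S) :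
    (S.filter (· < i + 1)).card = (S.filter (· < i)).card := by
  congr 1
  ext x
  simp only [Finset.mem_filter]
  constructor
  · rintro ⟨h1, h2⟩
    rcases Nat.lt_succ_iff_lt_or_eq.1 h2 with h3 | h3
    · exact ⟨h1, h3⟩
    · exact absurd (h3 ▸ h1) h
  · rintro ⟨h1, h2⟩
    exact ⟨h1, by omega⟩

theorem card_filter_mono {S : Finset ℕ} {i i' : ℕ} (h : i ≤ i') :
    (S.filter (· < i)).card ≤ (S.filter (· < i')).card := by
  apply Finset.card_le_card
  intro x hx
  rw [Finset.mem_filter] at hx ⊢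
  exact ⟨hx.1, lt_of_lt_of_le hx.2 h⟩

theorem wheel_of_chord {n : ℕ} {E : Set V} {t : ℕ → V} {j : ℕ} (h : IsPath E t j) {x : V}
    (hx : x ∈ E) (a : ℕ → ZMod 2) (hxa : x = ∑ i ∈ Finset.range (j + 1), a i • t i)
    (u v : ℕ) (huv : u ≤ v) (hvj : v ≤ j) (S : Finset ℕ) (hS : S ⊆ Finset.Ico u v)
    (hcard : S.card = n + 2) (hP : ∀ i ∈ S, ∑ m ∈ Finset.Ico u (i + 1), a m = 1)
    (hv : ∑ m ∈ Finset.Ico u (v + 1), a m = 0) : HasWheel (n + 3) E := by
  classical
  set X : Set V := {y | ∃ i, i ≤ j ∧ (i < u ∨ v < i) ∧ y = t i} ∪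
    {y | ∃ i, u ≤ i ∧ i < v ∧ i ∉ S ∧ y = t i + t (i + 1)} with hX
  set U := span (ZMod 2) X with hU
  set κ : ℕ → ℕ := fun i => (S.filter (· < i)).card with hκ
  have hκ1 : ∀ i ∈ S, κ (i + 1) = κ i + 1 := fun i hi => card_filter_succ_mem hi
  have hκ2 : ∀ i, i ∉ S → κ (i + 1) = κ i := fun i hi => card_filter_succ_notMem hi
  have hκ3 : ∀ i i', i ≤ i' → κ i ≤ κ i' := fun i i' hi => card_filter_mono hi
  have hκu : κ u = 0 := by
    rw [hκ]
    simp only [Finset.card_eq_zero, Finset.filter_eq_empty_iff, not_lt]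
    intro i hi
    exact (Finset.mem_Ico.1 (hS hi)).1
  have hκ0 : κ 0 = 0 := by
    rw [hκ]
    simp
  have hκv : κ v = n + 2 := by
    rw [hκ, ← hcard]
    simp only
    congr 1
    rw [Finset.filter_eq_self]
    intro i hi
    exact (Finset.mem_Ico.1 (hS hi)).2
  have hXE : X ⊆ E := by
    rintro y (⟨i, h1, -, rfl⟩ | ⟨i, -, h2, -, rfl⟩)
    · exact h.mem i h1
    · exact h.edge i (by omega)
  -- classes
  have hclass : ∀ i i', u ≤ i → i ≤ i' → i' ≤ v → κ i = κ i' → t i - t i' ∈ U := by
    intro i i' hui hii'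
    induction i', hii' using Nat.le_induction with
    | base =>
      intro _ _
      rw [sub_self]
      exact zero_mem _
    | succ m hm ih =>
      intro hmv hκim
      have h1 := hκ3 i m hm
      have h2 := hκ3 m (m + 1) (Nat.le_succ m)
      have hmS : m ∉ S := by
        intro hmS
        have := hκ1 m hmS
        omega
      have h3 := ih (by omega) (by omega)
      have h4 : t m + t (m + 1) ∈ U := subset_span (Or.inr ⟨m, by omega, by omega, hmS, rfl⟩)
      have h5 := add_mem h3 h4
      have h6 : t i - t m + (t m + t (m + 1)) = t i - t (m + 1) := by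
        rw [ZModModule.sub_eq_add (t i) (t (m + 1))]
        abel
      rwa [h6] at h5
  -- the representatives
  have hex : ∀ q, ∃ m, (q < n + 2 → m ∈ S ∧ κ m = q) ∧ (n + 2 ≤ q → m = v) := by
    intro q
    by_cases hq : q < n + 2
    · set b := Nat.findGreatest (fun i => κ i ≤ q) v with hb
      have h1 : κ b ≤ q := Nat.findGreatest_spec (P := fun i => κ i ≤ q) (m := 0) (Nat.zero_le _)
        (by rw [hκ0]; exact Nat.zero_le _)
      have h2 : b ≤ v := Nat.findGreatest_le v
      have h3 : b ≠ v := by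
        intro h3
        rw [h3, hκv] at h1
        omega
      have h4 : ¬ (κ (b + 1) ≤ q) := Nat.findGreatest_is_greatest (P := fun i => κ i ≤ q)
        (Nat.lt_succ_self b) (by omega)
      have h5 : b ∈ S := by
        by_contra h5
        have := hκ2 b h5
        omega
      have h6 := hκ1 b h5
      exact ⟨b, fun _ => ⟨h5, by omega⟩, fun h => absurd h (by omega)⟩
    · exact ⟨v, fun h => absurd h hq, fun _ => rfl⟩
  choose m hm1 hm2 using hex
  have hmκ : ∀ q ≤ n + 2, κ (m q) = q := by
    intro q hq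
    by_cases h1 : q < n + 2
    · exact (hm1 q h1).2
    · rw [hm2 q (by omega), hκv]
      omega
  have hmu : ∀ q, u ≤ m q := by
    intro q
    by_cases h1 : q < n + 2
    · exact (Finset.mem_Ico.1 (hS (hm1 q h1).1)).1
    · rw [hm2 q (by omega)]
      exact huv
  have hmv : ∀ q, m q ≤ v := by
    intro q
    by_cases h1 : q < n + 2
    · exact (Finset.mem_Ico.1 (hS (hm1 q h1).1)).2.le
    · rw [hm2 q (by omega)]
  have hclass' : ∀ i i', u ≤ i → u ≤ i' → i ≤ v → i' ≤ v → κ i = κ i' → t i - t i' ∈ U := by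
    intro i i' h1 h2 h3 h4 h5
    rcases le_total i i' with h6 | h6
    · exact hclass i i' h1 h6 h4 h5
    · have := hclass i' i h2 h6 h3 h5.symm
      rw [← neg_sub, neg_mem_iff]
      exact this
  -- Abel summation
  set P : ℕ → ZMod 2 := fun i => ∑ m ∈ Finset.Ico u (i + 1), a m with hPdef
  have habel : ∀ w, u ≤ w → ∑ i ∈ Finset.Ico u (w + 1), a i • t i =
      P w • t w + ∑ i ∈ Finset.Ico u w, P i • (t i + t (i + 1)) := by
    intro w hw
    induction w, hw using Nat.le_induction with
    | base => simp [hPdef]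
    | succ w hw ih =>
      rw [Finset.sum_Ico_succ_top (by omega), ih, Finset.sum_Ico_succ_top hw]
      have hPs : P (w + 1) = P w + a (w + 1) := by
        simp only [hPdef]
        rw [Finset.sum_Ico_succ_top (by omega)]
      rw [hPs, add_smul, smul_add]
      have h2 : P w • t (w + 1) + P w • t (w + 1) = 0 := add_self' _
      have h3 : P w • t (w + 1) + a (w + 1) • t (w + 1) +
          (∑ i ∈ Finset.Ico u w, P i • (t i + t (i + 1)) + (P w • t w + P w • t (w + 1))) =
          (P w • t (w + 1) + P w • t (w + 1)) + (P w • t w +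
            ∑ i ∈ Finset.Ico u w, P i • (t i + t (i + 1)) + a (w + 1) • t (w + 1)) := by
        abel
      rw [h3, h2, zero_add]
  have htel : ∀ w, u ≤ w → ∑ i ∈ Finset.Ico u w, (t i + t (i + 1)) = t u + t w := by
    intro w hw
    induction w, hw using Nat.le_induction with
    | base => simp [add_self']
    | succ w hw ih =>
      rw [Finset.sum_Ico_succ_top hw, ih]
      have h3 : t u + t w + (t w + t (w + 1)) = t u + t (w + 1) + (t w + t w) := by abel
      rw [h3, add_self', add_zero]
  have hxU : x - (t u + t v) ∈ U := by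
    have h1 : ∑ i ∈ Finset.range (j + 1) \ Finset.Ico u (v + 1), a i • t i ∈ U := by
      refine Submodule.sum_mem _ fun i hi => Submodule.smul_mem _ _ (subset_span (Or.inl ?_))
      rw [Finset.mem_sdiff, Finset.mem_range, Finset.mem_Ico] at hi
      exact ⟨i, by omega, by omega, rfl⟩
    have h2 : Finset.Ico u (v + 1) ⊆ Finset.range (j + 1) := by
      intro i hi
      rw [Finset.mem_Ico] at hi
      rw [Finset.mem_range]
      omega
    have h3 := Finset.sum_sdiff (f := fun i => a i • t i) h2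
    have hPv : P v = 0 := hv
    rw [habel v huv, hPv, zero_smul, zero_add] at h3
    have h4 : ∑ i ∈ Finset.Ico u v, P i • (t i + t (i + 1)) -
        ∑ i ∈ Finset.Ico u v, (t i + t (i + 1)) ∈ U := by
      rw [← Finset.sum_sub_distrib]
      refine Submodule.sum_mem _ fun i hi => ?_
      rw [Finset.mem_Ico] at hi
      by_cases hiS : i ∈ S
      · have : P i = 1 := hP i hiS
        rw [this, one_smul, sub_self]
        exact zero_mem _
      · have h5 : t i + t (i + 1) ∈ U := subset_span (Or.inr ⟨i, hi.1, hi.2, hiS, rfl⟩)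
        exact sub_mem (Submodule.smul_mem _ _ h5) h5
    rw [htel v huv] at h4
    have h5 := add_mem h1 h4
    have h6 : x - (t u + t v) = ∑ i ∈ Finset.range (j + 1) \ Finset.Ico u (v + 1), a i • t i +
        (∑ i ∈ Finset.Ico u v, P i • (t i + t (i + 1)) - (t u + t v)) := by
      rw [hxa, ← h3]
      abel
    rw [h6]
    exact h5
  refine ⟨X, hXE, fun q => t (m q),
    fun q => if (q : ℕ) < n + 2 then t (m q) + t (m q + 1) else x, ?_, ?_, ?_, ?_⟩
  · intro q
    exact h.mem _ ((hmv q).trans hvj)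
  · intro q
    simp only
    split_ifs with hq
    · apply h.edge
      have := (Finset.mem_Ico.1 (hS (hm1 q hq).1)).2
      omega
    · exact hx
  · intro g hg
    funext q0
    obtain ⟨L, hL⟩ := h.exists_functional (fun i => if u ≤ i ∧ i ≤ v ∧ κ i = q0 then 1 else 0)
    have hle : U ≤ LinearMap.ker L := by
      rw [hU, span_le]
      rintro y (⟨i, h1, h2, rfl⟩ | ⟨i, h1, h2, h3, rfl⟩)
      · rw [SetLike.mem_coe, LinearMap.mem_ker, hL i h1, if_neg (by omega)]
      · rw [SetLike.mem_coe, LinearMap.mem_ker, map_add, hL i (by omega), hL (i + 1) (by omega)]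
        have h4 := hκ2 i h3
        by_cases h5 : κ i = q0
        · rw [if_pos ⟨h1, h2.le, h5⟩, if_pos ⟨by omega, by omega, by omega⟩]
          decide
        · rw [if_neg (by omega), if_neg (by omega), add_zero]
    have h0 : L (∑ i, g i • t (m i)) = 0 := hle hg
    rw [map_sum, Finset.sum_eq_single q0] at h0
    · rw [map_smul, hL _ ((hmv _).trans hvj), if_pos ⟨hmu _, hmv _, hmκ _ (by omega)⟩] at h0
      simpa using h0
    · intro q _ hq
      rw [map_smul, hL _ ((hmv _).trans hvj), if_neg, smul_zero]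
      rintro ⟨-, -, h1⟩
      rw [hmκ _ (by omega)] at h1
      exact hq (Fin.ext h1)
    · intro hq
      exact absurd (Finset.mem_univ _) hq
  · intro q q' hqq
    simp only
    by_cases hq : (q : ℕ) < n + 2
    · rw [if_pos hq]
      have h1 : (q' : ℕ) = q + 1 := by
        rw [hqq, Nat.mod_eq_of_lt (by omega)]
      have h2 : t (m q) + t (m q + 1) - (t (m q) + t (m q')) = t (m q + 1) - t (m q') := by abel
      rw [h2]
      have h3 := (Finset.mem_Ico.1 (hS (hm1 q hq).1))
      apply hclass' _ _ (by omega) (hmu _) (by omega) (hmv _)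
      rw [hκ1 _ (hm1 q hq).1, hmκ q (by omega), hmκ q' (by omega), h1]
    · rw [if_neg hq]
      have h1 : (q : ℕ) = n + 2 := by omega
      have h2 : (q' : ℕ) = 0 := by
        rw [hqq, h1]
        simp
      have h3 : m q = v := hm2 q (by omega)
      rw [h3]
      have h4 : t u - t (m q') ∈ U :=
        hclass' _ _ le_rfl (hmu _) huv (hmv _) (by rw [hκu, hmκ q' (by omega), h2])
      have h5 := add_mem hxU h4
      have h6 : x - (t v + t (m q')) = x - (t u + t v) + (t u - t (m q')) := by abel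
      rw [h6]
      exact h5

theorem wheel_of_many {n : ℕ} {E : Set V} {t : ℕ → V} {j : ℕ} (h : IsPath E t j) {x : V}
    (hx : x ∈ E) (a : ℕ → ZMod 2) (hxa : x = ∑ i ∈ Finset.range (j + 1), a i • t i)
    (u l : ℕ) (hl : l + 1 ≤ j) (ha : a (l + 1) = 1) (S : Finset ℕ)
    (hS : ∀ i ∈ S, u ≤ i ∧ i ≤ l ∧ ∑ m ∈ Finset.Ico u (i + 1), a m = 1)
    (hcard : n + 2 ≤ S.card) : HasWheel (n + 3) E := by
  classical
  obtain ⟨S', hS', hc⟩ := Finset.exists_subset_card_eq hcard
  have hne : S'.Nonempty := by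
    rw [← Finset.card_pos]
    omega
  obtain ⟨i0, hi0⟩ := hne
  have hul : u ≤ l := by
    have := hS i0 (hS' hi0)
    omega
  rcases zmod2_cases (∑ m ∈ Finset.Ico u (l + 1), a m) with h0 | h1
  · refine wheel_of_chord h hx a hxa u l hul (by omega) S' ?_ hc
      (fun i hi => (hS i (hS' hi)).2.2) h0
    intro i hi
    have h2 := hS i (hS' hi)
    rw [Finset.mem_Ico]
    refine ⟨h2.1, lt_of_le_of_ne h2.2.1 ?_⟩
    rintro rfl
    rw [h0] at h2
    exact absurd h2.2.2 (by decide)
  · refine wheel_of_chord h hx a hxa u (l + 1) (by omega) hl S' ?_ hc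
      (fun i hi => (hS i (hS' hi)).2.2) ?_
    · intro i hi
      have h2 := hS i (hS' hi)
      rw [Finset.mem_Ico]
      omega
    · rw [Finset.sum_Ico_succ_top (by omega), h1, ha]
      decide

theorem IsPath.cons {E : Set V} {t : ℕ → V} {j : ℕ} (h : IsPath E t j) {y : V} (hy : y ∈ E)
    (hyt : y + t 0 ∈ E) (hys : y ∉ span (ZMod 2) (range fun i : Fin (j + 1) => t i)) :
    IsPath E (fun i => Nat.casesOn i y t) (j + 1) := by
  refine ⟨?_, ?_, ?_⟩
  · have : (fun i : Fin (j + 1 + 1) => (Nat.casesOn (i : ℕ) y t : V)) =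
        Fin.cons y (fun i : Fin (j + 1) => t i) := by
      funext i
      refine Fin.cases ?_ (fun i => ?_) i
      · rfl
      · rfl
    rw [this, linearIndependent_finCons]
    exact ⟨h.li, hys⟩
  · intro i hi
    cases i with
    | zero => exact hy
    | succ i => exact h.mem i (by omega)
  · intro i hi
    cases i with
    | zero => exact hyt
    | succ i => exact h.edge i (by omega)

theorem IsPath.card_le {E : Finset V} {t : ℕ → V} {j : ℕ} (h : IsPath (E : Set V) t j) :
    j + 1 ≤ E.card := by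
  classical
  have h1 : (Finset.univ.image (fun i : Fin (j + 1) => t i)).card = j + 1 := by
    rw [Finset.card_image_of_injective _ h.li.injective]
    simp
  rw [← h1]
  apply Finset.card_le_card
  intro x hx
  obtain ⟨i, -, rfl⟩ := Finset.mem_image.1 hx
  exact h.mem i (by omega)

theorem exists_path (E : Finset V) (hne : E.Nonempty) (h0 : (0 : V) ∉ E) :
    ∃ t j, IsPath (E : Set V) t j ∧ ∀ y ∈ E, y + t 0 ∈ E →
      y ∈ span (ZMod 2) (range fun i : Fin (j + 1) => t i) := by
  classical
  obtain ⟨e, he⟩ := hne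
  have he0 : e ≠ 0 := by
    rintro rfl
    exact h0 he
  let P : ℕ → Prop := fun j => ∃ t, IsPath (E : Set V) t j
  have hP0 : P 0 := by
    refine ⟨fun _ => e, ?_, fun _ _ => he, fun i hi => absurd hi (by omega)⟩
    have : Unique (Fin (0 + 1)) := inferInstanceAs (Unique (Fin 1))
    exact LinearIndependent.of_subsingleton (0 : Fin (0 + 1)) he0
  have hspec := Nat.findGreatest_spec (P := P) (n := E.card) (m := 0) (Nat.zero_le _) hP0
  obtain ⟨t, ht⟩ := hspec
  refine ⟨t, _, ht, fun y hy hyt => ?_⟩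
  by_contra hcon
  have h1 := ht.cons hy hyt hcon
  have h2 := h1.card_le
  have h3 := Nat.le_findGreatest (P := P) (n := E.card)
    (m := Nat.findGreatest P E.card + 1) (by omega) ⟨_, h1⟩
  omega

/-- expansion of a vector in the span of the path -/
theorem expand {t : ℕ → V} {j : ℕ} {L : ℕ → (V →ₗ[ZMod 2] ZMod 2)}
    (hL : ∀ i, ∀ m ≤ j, L i (t m) = if m = i then 1 else 0) {x : V}
    (hx : x ∈ span (ZMod 2) (range fun i : Fin (j + 1) => t i)) :
    x = ∑ i ∈ Finset.range (j + 1), L i x • t i := by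
  induction hx using Submodule.span_induction with
  | mem x hx =>
    obtain ⟨m, rfl⟩ := hx
    simp only
    rw [Finset.sum_eq_single (m : ℕ)]
    · rw [hL _ _ (by omega), if_pos rfl, one_smul]
    · intro i _ hi
      rw [hL _ _ (by omega), if_neg (fun h => hi h.symm), zero_smul]
    · intro hm
      exact absurd (Finset.mem_range.2 m.2) hm
  | zero => simp
  | add x y _ _ ihx ihy =>
    conv_lhs => rw [ihx, ihy]
    rw [← Finset.sum_add_distrib]
    refine Finset.sum_congr rfl fun i _ => ?_
    rw [map_add, add_smul]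
  | smul c x _ ih =>
    conv_lhs => rw [ih]
    rw [Finset.smul_sum]
    refine Finset.sum_congr rfl fun i _ => ?_
    rw [map_smul, smul_assoc]

end basics

end Pool.Agent.KS6_38.CE
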